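import Mathlib

set_option autoImplicit false

namespace Pool.Agent.Lib.MP_57deef_al

/-- Algebraic data describing one end of a group acting on a line. -/
structure EndData (G : Type*) [Group G] where
  χ : G → ℤ
  χ_mul : ∀ g h, χ (g * h) = χ g + χ h
  z : G
  χ_z : χ z = 1
  A : ℤ → Subgroup G
  A_mono : Monotone A
  A_conj : ∀ j g, g ∈ A j ↔ z * g * z⁻¹ ∈ A (j + 1)
  A_ker : ∀ j, ∀ g ∈ A j, χ g = 0
  ker_A : ∀ g, χ g = 0 → ∃ j, g ∈ A j
  A_proper : ∀ j, ∃ g, χ g = 0 ∧ g ∉ A j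
  cent1 : ∃ w, χ w ≠ 0 ∧ ∀ g ∈ A 0, Commute g w
  cent2 : ∀ w, χ w ≠ 0 → ∃ i, ∀ g, χ g = 0 → Commute g w → g ∈ A i
  key : ∀ g, χ g < 0 → ∃ f, ∀ w, χ w ≠ 0 → Commute g w → ¬ Commute (g * f * g⁻¹ * f⁻¹) w

section Hom

variable {G : Type*} [Group G] {χ : G → ℤ}

lemma hom_one (h : ∀ g k, χ (g * k) = χ g + χ k) : χ 1 = 0 := by
  have := h 1 1
  rw [mul_one] at this
  omega

lemma hom_inv (h : ∀ g k, χ (g * k) = χ g + χ k) (g : G) : χ g⁻¹ = -χ g := by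
  have := h g g⁻¹
  rw [mul_inv_cancel, hom_one h] at this
  omega

lemma hom_zpow (h : ∀ g k, χ (g * k) = χ g + χ k) (g : G) (n : ℤ) : χ (g ^ n) = n * χ g := by
  induction n using Int.induction_on with
  | zero => simp [hom_one h]
  | succ n ih => rw [zpow_add_one, h, ih]; ring
  | pred n ih => rw [zpow_sub_one, h, ih, hom_inv h]; ring

end Hom

namespace EndData

variable {G : Type*} [Group G] (E : EndData G)

lemma χ_one : E.χ 1 = 0 := hom_one E.χ_mul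

lemma χ_inv (g : G) : E.χ g⁻¹ = -E.χ g := hom_inv E.χ_mul g

lemma χ_zpow (g : G) (n : ℤ) : E.χ (g ^ n) = n * E.χ g := hom_zpow E.χ_mul g n

lemma χ_conj (g h : G) : E.χ (h * g * h⁻¹) = E.χ g := by
  rw [E.χ_mul, E.χ_mul, E.χ_inv]; ring

lemma χ_decomp (g : G) : E.χ ((E.z ^ E.χ g)⁻¹ * g) = 0 := by
  rw [E.χ_mul, E.χ_inv, E.χ_zpow, E.χ_z]; ring

lemma A_conj_zpow (n j : ℤ) (g : G) (hg : g ∈ E.A j) :
    E.z ^ n * g * (E.z ^ n)⁻¹ ∈ E.A (j + n) := by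
  induction n using Int.induction_on with
  | zero => simpa using hg
  | succ n ih =>
    have := (E.A_conj _ _).1 ih
    rw [← add_assoc]
    convert this using 1
    rw [add_comm (n : ℤ) 1, zpow_add, zpow_one]; group
  | pred n ih =>
    rw [E.A_conj]
    have e : j + (-(n : ℤ) - 1) + 1 = j + -n := by ring
    rw [e]
    convert ih using 1
    group

lemma conj_mem (g : G) : ∃ j₀, ∀ j, j₀ ≤ j → ∀ k ∈ E.A j, g * k * g⁻¹ ∈ E.A (j + E.χ g) := by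
  obtain ⟨j₀, h₀⟩ := E.ker_A _ (E.χ_decomp g)
  refine ⟨j₀, fun j hj k hk => ?_⟩
  have h1 := E.A_mono hj h₀
  have h2 := E.A_conj_zpow (E.χ g) j _
    ((E.A j).mul_mem ((E.A j).mul_mem h1 hk) ((E.A j).inv_mem h1))
  convert h2 using 1
  group

lemma not_le_pred (j : ℤ) : ¬ E.A j ≤ E.A (j - 1) := by
  intro h
  have h1 : ∀ n : ℕ, E.A (j + n) ≤ E.A (j + n - 1) := by
    intro n g hg
    have h2 := h (by simpa using E.A_conj_zpow (-n) _ g hg)
    have h3 := E.A_conj_zpow n _ _ h2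
    have e : j - 1 + n = j + n - 1 := by ring
    rw [e] at h3
    convert h3 using 1
    group
  have h2 : ∀ n : ℕ, E.A (j + n) ≤ E.A j := by
    intro n
    induction n with
    | zero => simp
    | succ n ih =>
      refine (h1 (n + 1)).trans ?_
      have e : j + ((n + 1 : ℕ) : ℤ) - 1 = j + n := by push_cast; ring
      rw [e]; exact ih
  obtain ⟨g, hg, hgj⟩ := E.A_proper j
  obtain ⟨i, hi⟩ := E.ker_A g hg
  exact hgj (h2 (i - j).toNat (E.A_mono (by omega) hi))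

/-- If an automorphism maps one kernel into another, the characters agree up to a sign. -/
lemma χ_aut_sign (E' : EndData G) (α : MulAut G) (h : ∀ g, E.χ g = 0 → E'.χ (α g) = 0) :
    (∀ g, E'.χ (α g) = E.χ g * E'.χ (α E.z)) ∧ (E'.χ (α E.z) = 1 ∨ E'.χ (α E.z) = -1) := by
  have h1 : ∀ g, E'.χ (α g) = E.χ g * E'.χ (α E.z) := by
    intro g
    have := h _ (E.χ_decomp g)
    rw [map_mul, map_inv, map_zpow, E'.χ_mul, E'.χ_inv, E'.χ_zpow] at this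
    omega
  refine ⟨h1, ?_⟩
  have h2 := h1 (α.symm E'.z)
  rw [MulEquiv.apply_symm_apply, E'.χ_z] at h2
  exact Int.eq_one_or_neg_one_of_mul_eq_one (by rw [mul_comm]; exact h2.symm)

lemma bounded (E' : EndData G) (α : MulAut G) (h : ∀ g, E.χ g = 0 → E'.χ (α g) = 0) :
    ∃ i, ∀ g ∈ E.A 0, α g ∈ E'.A i := by
  obtain ⟨w, hw, hcomm⟩ := E.cent1
  obtain ⟨h1, h2⟩ := E.χ_aut_sign E' α h
  have hw' : E'.χ (α w) ≠ 0 := by
    rw [h1]
    rcases h2 with h2 | h2 <;> rw [h2] <;> omega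
  obtain ⟨i, hi⟩ := E'.cent2 _ hw'
  exact ⟨i, fun g hg => hi _ (h g (E.A_ker 0 g hg)) ((hcomm g hg).map α)⟩

lemma χ_aut (E' : EndData G) (α : MulAut G) (h : ∀ g, E.χ g = 0 → E'.χ (α g) = 0) (g : G) :
    E'.χ (α g) = E.χ g := by
  obtain ⟨h1, h2 | h2⟩ := E.χ_aut_sign E' α h
  · rw [h1, h2, mul_one]
  exfalso
  obtain ⟨i, hi⟩ := E.bounded E' α h
  obtain ⟨j₀, hj₀⟩ := E'.conj_mem (α E.z)
  have h3 : ∀ n : ℕ, ∀ g ∈ E.A n, α g ∈ E'.A (max i j₀) := by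
    intro n
    induction n with
    | zero => exact fun g hg => E'.A_mono (le_max_left _ _) (hi g hg)
    | succ n ih =>
      intro g hg
      have h4 : E.z⁻¹ * g * E.z ∈ E.A n := by
        rw [E.A_conj]
        convert hg using 1
        group
      have h5 := hj₀ _ (le_max_right _ _) _ (ih _ h4)
      rw [← map_inv, ← map_mul, ← map_mul] at h5
      have e : E.z * (E.z⁻¹ * g * E.z) * E.z⁻¹ = g := by group
      rw [e] at h5
      exact E'.A_mono (by omega) h5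
  obtain ⟨g, hg, hgj⟩ := E'.A_proper (max i j₀)
  have h6 : E.χ (α.symm g) = 0 := by
    have := h1 (α.symm g)
    rw [MulEquiv.apply_symm_apply, hg, h2] at this
    omega
  obtain ⟨j, hj⟩ := E.ker_A _ h6
  have h7 := h3 j.toNat _ (E.A_mono (by omega) hj)
  rw [MulEquiv.apply_symm_apply] at h7
  exact hgj h7

/-- `α` shifts the chain by at most `c`, far out. -/
def D (α : MulAut G) (c : ℤ) : Prop := ∃ j₀, ∀ j, j₀ ≤ j → ∀ g ∈ E.A j, α g ∈ E.A (j + c)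

lemma D_exists (α : MulAut G) (h : ∀ g, E.χ (α g) = E.χ g) : ∃ c, E.D α c := by
  obtain ⟨i, hi⟩ := E.bounded E α (fun g hg => by rw [h, hg])
  obtain ⟨j₀, hj₀⟩ := E.conj_mem (α E.z)
  have h3 : ∀ n : ℕ, ∀ g ∈ E.A n, α g ∈ E.A (n + max i j₀) := by
    intro n
    induction n with
    | zero => exact fun g hg => E.A_mono (by simp) (hi g hg)
    | succ n ih =>
      intro g hg
      have h4 : E.z⁻¹ * g * E.z ∈ E.A n := by
        rw [E.A_conj]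
        convert hg using 1
        group
      have h5 := hj₀ _ (by omega) _ (ih _ h4)
      rw [← map_inv, ← map_mul, ← map_mul, h, E.χ_z] at h5
      have e : E.z * (E.z⁻¹ * g * E.z) * E.z⁻¹ = g := by group
      rw [e] at h5
      exact E.A_mono (by omega) h5
  refine ⟨max i j₀, 0, fun j hj g hg => ?_⟩
  obtain ⟨n, rfl⟩ := Int.eq_ofNat_of_zero_le hj
  exact h3 n g hg

lemma D_mul {α β : MulAut G} {c d : ℤ} (hα : E.D α c) (hβ : E.D β d) : E.D (α * β) (c + d) := by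
  obtain ⟨i, hi⟩ := hα
  obtain ⟨j, hj⟩ := hβ
  refine ⟨max j (i - d), fun n hn g hg => ?_⟩
  have := hi _ (by omega) _ (hj n (by omega) g hg)
  rw [MulAut.mul_apply]
  exact E.A_mono (by omega) this

lemma D_mono {α : MulAut G} {c d : ℤ} (hα : E.D α c) (h : c ≤ d) : E.D α d := by
  obtain ⟨i, hi⟩ := hα
  exact ⟨i, fun n hn g hg => E.A_mono (by omega) (hi n hn g hg)⟩

lemma D_conj (g : G) : E.D (MulAut.conj g) (E.χ g) := E.conj_mem g

lemma not_D_one : ¬ E.D 1 (-1) := by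
  rintro ⟨j, hj⟩
  exact E.not_le_pred j (fun g hg => hj j le_rfl g hg)

/-- No Heisenberg relation among automorphisms preserving the end. -/
lemma heisenberg (α : MulAut G) (hα : ∀ g, E.χ (α g) = E.χ g) (n : ℤ)
    (h : ∀ m : ℤ, ∃ (β : MulAut G) (γ : G), (∀ g, E.χ (β g) = E.χ g) ∧
      α * β * α⁻¹ = MulAut.conj γ * β ∧ E.χ γ = m * n) : n = 0 := by
  by_contra hn
  have hinv : ∀ β : MulAut G, (∀ g, E.χ (β g) = E.χ g) → ∀ g, E.χ (β⁻¹ g) = E.χ g := by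
    intro β hβ g
    rw [← hβ, ← MulAut.mul_apply, mul_inv_cancel, MulAut.one_apply]
  obtain ⟨c₁, h₁⟩ := E.D_exists α hα
  obtain ⟨c₂, h₂⟩ := E.D_exists α⁻¹ (hinv α hα)
  obtain ⟨β, γ, hβ, hrel, hγ⟩ := h ((|c₁ + c₂| + 1) * n)
  have hbig : c₁ + c₂ + 1 ≤ E.χ γ := by
    rw [hγ]
    have h1 : 1 ≤ n * n := by
      rcases lt_or_gt_of_ne hn with h | h <;> nlinarith
    have h2 := le_abs_self (c₁ + c₂)
    have h3 := abs_nonneg (c₁ + c₂)
    nlinarith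
  have hstep : ∀ c, E.D β c → E.D β (c - 1) := by
    intro c hc
    have h3 := E.D_mul (E.D_conj γ⁻¹) (E.D_mul (E.D_mul h₁ hc) h₂)
    rw [hrel, ← mul_assoc, ← map_mul, inv_mul_cancel, map_one, one_mul, E.χ_inv] at h3
    exact E.D_mono h3 (by omega)
  obtain ⟨c, hc⟩ := E.D_exists β hβ
  obtain ⟨d, hd⟩ := E.D_exists β⁻¹ (hinv β hβ)
  have hall : ∀ k : ℕ, E.D β (c - k) := by
    intro k
    induction k with
    | zero => simpa using hc
    | succ k ih =>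
      have := hstep _ ih
      exact E.D_mono this (by push_cast; omega)
  have h4 := E.D_mul (hall (c + d + 1).toNat) hd
  rw [mul_inv_cancel] at h4
  exact E.not_D_one (E.D_mono h4 (by omega))

end EndData

section TwoEnds

variable {G : Type*} [Group G] (E₀ E₁ : EndData G)

lemma one_end (hsep : ∀ g₁ g₂ y : G, E₀.χ g₁ = 0 → E₀.χ g₂ = 0 → E₁.χ y = 0 →
      ∃ u : G, Commute g₁ (u * y * u⁻¹) ∧ Commute g₂ (u * y * u⁻¹))
    (E : EndData G) (α : MulAut G) :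
    (∀ g, E₀.χ g = 0 → E.χ (α g) = 0) ∨ (∀ g, E₁.χ g = 0 → E.χ (α g) = 0) := by
  by_contra hcon
  simp only [not_or, not_forall] at hcon
  obtain ⟨⟨g, hg, hg'⟩, ⟨y, hy, hy'⟩⟩ := hcon
  have main : ∀ g : G, E₀.χ g = 0 → E.χ (α g) < 0 → False := by
    intro g hg hg'
    obtain ⟨f, hf⟩ := E.key _ hg'
    obtain ⟨u, h1, h2⟩ := hsep g (g * α.symm f * g⁻¹ * (α.symm f)⁻¹) y hg
      (by rw [E₀.χ_mul, E₀.χ_conj, E₀.χ_inv]; ring) hy
    refine hf (α (u * y * u⁻¹)) ?_ (h1.map α) ?_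
    · rw [map_mul, map_mul, map_inv, E.χ_conj]; exact hy'
    · have := h2.map α
      simpa only [map_mul, map_inv, MulEquiv.apply_symm_apply] using this
  rcases lt_or_gt_of_ne hg' with h | h
  · exact main g hg h
  · refine main g⁻¹ (by rw [E₀.χ_inv, hg, neg_zero]) ?_
    rw [map_inv, E.χ_inv]; omega

lemma not_both (x y : G) (hx0 : E₀.χ x = 0) (hx1 : E₁.χ x ≠ 0) (hy0 : E₀.χ y ≠ 0)
    (E : EndData G) (α : MulAut G) (h0 : ∀ g, E.χ g = 0 → E₀.χ (α g) = 0)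
    (h1 : ∀ g, E.χ g = 0 → E₁.χ (α g) = 0) : False := by
  have a0 := E.χ_aut E₀ α h0
  have a1 := E.χ_aut E₁ α h1
  have b0 := a0 (α.symm x)
  have b1 := a1 (α.symm x)
  rw [MulEquiv.apply_symm_apply] at b0 b1
  omega

lemma aut_cases (hsep : ∀ g₁ g₂ y : G, E₀.χ g₁ = 0 → E₀.χ g₂ = 0 → E₁.χ y = 0 →
      ∃ u : G, Commute g₁ (u * y * u⁻¹) ∧ Commute g₂ (u * y * u⁻¹))
    (x : G) (hx0 : E₀.χ x = 0) (hx1 : E₁.χ x ≠ 0) (α : MulAut G) :
    ((∀ g, E₀.χ (α g) = E₀.χ g) ∧ (∀ g, E₁.χ (α g) = E₁.χ g)) ∨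
      ((∀ g, E₀.χ (α g) = E₁.χ g) ∧ (∀ g, E₁.χ (α g) = E₀.χ g)) := by
  have hz : E₀.χ E₀.z ≠ 0 := by rw [E₀.χ_z]; exact one_ne_zero
  rcases one_end E₀ E₁ hsep E₀ α with h0 | h0 <;> rcases one_end E₀ E₁ hsep E₁ α with h1 | h1
  · exact (not_both E₀ E₁ x _ hx0 hx1 hz E₀ α h0 h1).elim
  · exact Or.inl ⟨E₀.χ_aut E₀ α h0, E₁.χ_aut E₁ α h1⟩
  · exact Or.inr ⟨E₁.χ_aut E₀ α h0, E₀.χ_aut E₁ α h1⟩
  · exact (not_both E₀ E₁ x _ hx0 hx1 hz E₁ α h0 h1).elim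

end TwoEnds

end Pool.Agent.Lib.MP_57deef_al
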