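import Pool.Agent.Lib.MP_57deef_al.Defs

set_option autoImplicit false

namespace Pool.Agent.Lib.MP_57deef_al

open unitInterval

lemma two_zpow_mem (k : ℤ) : (2 : ℝ) ^ k ∈ Subring.closure {(1 / 2 : ℝ)} := by
  have h2 : (2 : ℝ) ∈ Subring.closure {(1 / 2 : ℝ)} := by
    simp
  have h3 : (2 : ℝ)⁻¹ ∈ Subring.closure {(1 / 2 : ℝ)} := by
    apply Subring.subset_closure; simp
  obtain ⟨n, rfl | rfl⟩ := Int.eq_nat_or_neg k
  · rw [zpow_natCast]; exact pow_mem h2 n
  · rw [zpow_neg, zpow_natCast, ← inv_pow]; exact pow_mem h3 n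

lemma map_zero_of_mono {f : I ≃ₜ I} (hf : StrictMono f) : f 0 = 0 := by
  apply le_antisymm _ unitInterval.nonneg'
  have := hf.monotone (unitInterval.nonneg' (t := f.symm 0))
  rwa [f.apply_symm_apply] at this

lemma map_one_of_mono {f : I ≃ₜ I} (hf : StrictMono f) : f 1 = 1 := by
  apply le_antisymm unitInterval.le_one'
  have := hf.monotone (unitInterval.le_one' (t := f.symm 1))
  rwa [f.apply_symm_apply] at this

lemma symm_mono {f : I ≃ₜ I} (hf : StrictMono f) : StrictMono f.symm := by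
  intro a b hab
  rw [← hf.lt_iff_lt, f.apply_symm_apply, f.apply_symm_apply]
  exact hab

lemma IsThompson.base {f : I ≃ₜ I} (hf : IsThompson f) (x : I) :
    ∃ b : I, (b : ℝ) ∈ Subring.closure {(1 / 2 : ℝ)} ∧ (f b : ℝ) ∈ Subring.closure {(1 / 2 : ℝ)} ∧
      ∃ k : ℤ, (f x : ℝ) = f b + 2 ^ k * (x - b) := by
  classical
  obtain ⟨hm, B, hB, hpl⟩ := hf
  induction hn : (B.filter (fun b => 0 < b ∧ b < (x : ℝ))).card using Nat.strong_induction_on
    generalizing x with
  | _ n ih =>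
    by_cases hne : (B.filter (fun b => 0 < b ∧ b < (x : ℝ))).Nonempty
    · set b₀ := (B.filter (fun b => 0 < b ∧ b < (x : ℝ))).max' hne with hb₀
      have hmem := Finset.mem_filter.1 (Finset.max'_mem _ hne)
      rw [← hb₀] at hmem
      obtain ⟨hbB, hb0, hbx⟩ := hmem
      set b : I := ⟨b₀, hb0.le, hbx.le.trans x.2.2⟩ with hb
      have hlt : (B.filter (fun c => 0 < c ∧ c < (b : ℝ))).card < n := by
        rw [← hn]
        apply Finset.card_lt_card
        refine ⟨fun c hc => ?_, fun h => ?_⟩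
        · rw [Finset.mem_filter] at hc ⊢
          exact ⟨hc.1, hc.2.1, hc.2.2.trans hbx⟩
        · have := Finset.mem_filter.1 (h (Finset.mem_filter.2 ⟨hbB, hb0, hbx⟩))
          exact lt_irrefl _ this.2.2
      obtain ⟨b', h1, h2, k', h3⟩ := ih _ hlt b rfl
      have hbx' : b < x := hbx
      obtain ⟨k, c, hkc⟩ := hpl b x hbx' (by
        rintro c hc ⟨h4, h5⟩
        have := Finset.le_max' (B.filter (fun b => 0 < b ∧ b < (x : ℝ))) c
          (Finset.mem_filter.2 ⟨hc, hb0.trans h4, h5⟩)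
        exact absurd h4 (not_lt.2 this))
      refine ⟨b, hB _ hbB, ?_, k, ?_⟩
      · rw [h3]
        exact add_mem h2 (mul_mem (two_zpow_mem _) (sub_mem (hB _ hbB) h1))
      · rw [hkc x hbx'.le le_rfl, hkc b le_rfl hbx'.le]; ring
    · have h0 : f 0 = 0 := map_zero_of_mono hm
      refine ⟨0, zero_mem _, by rw [h0]; exact zero_mem _, ?_⟩
      rcases (unitInterval.nonneg' (t := x)).eq_or_lt with h | h
      · exact ⟨0, by rw [← h]; simp⟩
      · obtain ⟨k, c, hkc⟩ := hpl 0 x h (fun c hc h4 => hne ⟨c, Finset.mem_filter.2 ⟨hc, h4⟩⟩)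
        exact ⟨k, by rw [hkc x h.le le_rfl, hkc 0 le_rfl h.le]; ring⟩

lemma IsThompson.dyadic_iff {f : I ≃ₜ I} (hf : IsThompson f) (x : I) :
    (f x : ℝ) ∈ Subring.closure {(1 / 2 : ℝ)} ↔ (x : ℝ) ∈ Subring.closure {(1 / 2 : ℝ)} := by
  obtain ⟨b, h1, h2, k, h3⟩ := hf.base x
  constructor
  · intro h
    have : (x : ℝ) = b + 2 ^ (-k) * (f x - f b) := by
      rw [h3, zpow_neg]; field_simp; ring
    rw [this]
    exact add_mem h1 (mul_mem (two_zpow_mem _) (sub_mem h h2))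
  · intro h
    rw [h3]
    exact add_mem h2 (mul_mem (two_zpow_mem _) (sub_mem h h1))

lemma isThompson_one : IsThompson 1 :=
  ⟨strictMono_id, ∅, by simp, fun _ _ _ _ => ⟨0, 0, fun x _ _ => by simp⟩⟩

open Classical in
/-- The image of the points of `B` lying in `[0,1]`. -/
noncomputable def push (f : I ≃ₜ I) (B : Finset ℝ) : Finset ℝ :=
  (B.subtype (· ∈ I)).image (fun b => (f b : ℝ))

lemma mem_push {f : I ≃ₜ I} {B : Finset ℝ} {c : ℝ} :
    c ∈ push f B ↔ ∃ b : I, (b : ℝ) ∈ B ∧ (f b : ℝ) = c := by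
  simp [push]

lemma IsThompson.inv {f : I ≃ₜ I} (hf : IsThompson f) : IsThompson f⁻¹ := by
  have hd := hf.dyadic_iff
  obtain ⟨hm, B, hB, hpl⟩ := hf
  have hm' := symm_mono hm
  refine ⟨hm', push f B, fun c hc => ?_, fun u v huv hc => ?_⟩
  · obtain ⟨b, hb, rfl⟩ := mem_push.1 hc
    exact (hd b).2 (hB _ hb)
  · obtain ⟨k, c, hkc⟩ := hpl (f.symm u) (f.symm v) (hm' huv) (by
      rintro b hb ⟨h1, h2⟩
      set b' : I := ⟨b, (f.symm u).2.1.trans h1.le, h2.le.trans (f.symm v).2.2⟩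
      refine hc _ (mem_push.2 ⟨b', hb, rfl⟩) ⟨?_, ?_⟩
      · have := hm (show f.symm u < b' from h1)
        rwa [f.apply_symm_apply] at this
      · have := hm (show b' < f.symm v from h2)
        rwa [f.apply_symm_apply] at this)
    refine ⟨-k, -(2 ^ (-k) * c), fun x h1 h2 => ?_⟩
    have := hkc (f.symm x) (hm'.monotone h1) (hm'.monotone h2)
    rw [f.apply_symm_apply] at this
    change (f.symm x : ℝ) = _
    rw [this, zpow_neg]; field_simp; ring

lemma IsThompson.mul {f g : I ≃ₜ I} (hf : IsThompson f) (hg : IsThompson g) :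
    IsThompson (f * g) := by
  classical
  have hd := hg.inv.dyadic_iff
  obtain ⟨hm, B, hB, hpl⟩ := hf
  obtain ⟨hm', B', hB', hpl'⟩ := hg
  have hm'' := symm_mono hm'
  refine ⟨hm.comp hm', B' ∪ push g⁻¹ B, fun c hc => ?_, fun u v huv hc => ?_⟩
  · rcases Finset.mem_union.1 hc with hc | hc
    · exact hB' _ hc
    · obtain ⟨b, hb, rfl⟩ := mem_push.1 hc
      exact (hd b).2 (hB _ hb)
  · obtain ⟨k', c', hkc'⟩ := hpl' u v huv (fun b hb => hc b (Finset.mem_union_left _ hb))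
    obtain ⟨k, c, hkc⟩ := hpl (g u) (g v) (hm' huv) (by
      rintro b hb ⟨h1, h2⟩
      set b' : I := ⟨b, (g u).2.1.trans h1.le, h2.le.trans (g v).2.2⟩
      refine hc _ (Finset.mem_union_right _ (mem_push.2 ⟨b', hb, rfl⟩)) ⟨?_, ?_⟩
      · have := hm'' (show g u < b' from h1)
        rwa [g.symm_apply_apply] at this
      · have := hm'' (show b' < g v from h2)
        rwa [g.symm_apply_apply] at this)
    refine ⟨k + k', 2 ^ k * c' + c, fun x h1 h2 => ?_⟩
    change (f (g x) : ℝ) = _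
    rw [hkc (g x) (hm'.monotone h1) (hm'.monotone h2), hkc' x h1 h2, zpow_add₀ two_ne_zero]
    ring

end Pool.Agent.Lib.MP_57deef_al
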