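import Pool.Agent.Lib.MP_57deef_al.NotIntegrable

set_option autoImplicit false

namespace Pool.Agent.Lib.MP_57deef_al

/-- A group acting faithfully on a line, with cyclic germs at the lower end. -/
structure Setup (G Ω : Type*) [Group G] [LinearOrder Ω] [MulAction G Ω] where
  t₀ : Ω
  mono : ∀ (g : G) (s t : Ω), s < t → g • s < g • t
  faith : ∀ g : G, (∀ t : Ω, g • t = t) → g = 1
  z : G
  z_lt : ∀ t : Ω, z • t < t
  z_cof : ∀ s t : Ω, ∃ n : ℕ, z ^ n • s < t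
  germ : ∀ g : G, ∃ (a : ℤ) (ε : Ω), ∀ t ≤ ε, g • t = z ^ a • t
  x : G
  x_germ : ∃ ε : Ω, ∀ t ≤ ε, x • t = t
  x_ne : x ≠ 1
  y : G
  y_germ : ∃ ε : Ω, ∀ t ≤ ε, y • t = z • t
  y_fix : ∃ M : Ω, ∀ t, M ≤ t → y • t = t

namespace Setup

variable {G Ω : Type*} [Group G] [LinearOrder Ω] [MulAction G Ω] (S : Setup G Ω)

include S in
lemma lt_iff (g : G) (s t : Ω) : g • s < g • t ↔ s < t :=
  ⟨fun h => by simpa using S.mono g⁻¹ _ _ h, S.mono g s t⟩

include S in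
lemma le_iff (g : G) (s t : Ω) : g • s ≤ g • t ↔ s ≤ t := by
  rw [← not_lt, ← not_lt, S.lt_iff]

lemma zpow_le (n : ℕ) (t : Ω) : S.z ^ n • t ≤ t := by
  induction n with
  | zero => simp
  | succ n ih => rw [pow_succ', mul_smul]; exact (S.z_lt _).le.trans ih

lemma zpow_lt {a : ℤ} (ha : 0 < a) (t : Ω) : S.z ^ a • t < t := by
  obtain ⟨n, rfl⟩ : ∃ n : ℕ, a = n + 1 := ⟨(a - 1).toNat, by omega⟩
  rw [zpow_add_one, mul_smul, zpow_natCast]
  exact (S.zpow_le n _).trans_lt (S.z_lt t)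

lemma zpow_anti {a b : ℤ} (h : a < b) (t : Ω) : S.z ^ b • t < S.z ^ a • t := by
  have : S.z ^ b • t = S.z ^ (b - a) • (S.z ^ a • t) := by
    rw [← mul_smul, ← zpow_add, sub_add_cancel]
  rw [this]
  exact S.zpow_lt (by omega) _

lemma zpow_anti' {a b : ℤ} (h : a ≤ b) (t : Ω) : S.z ^ b • t ≤ S.z ^ a • t := by
  rcases h.eq_or_lt with rfl | h
  · exact le_rfl
  · exact (S.zpow_anti h t).le

lemma zpow_inj {a b : ℤ} {t : Ω} (h : S.z ^ a • t = S.z ^ b • t) : a = b := by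
  rcases lt_trichotomy a b with h1 | h1 | h1
  · exact absurd h (S.zpow_anti h1 t).ne'
  · exact h1
  · exact absurd h (S.zpow_anti h1 t).ne

noncomputable def χ (g : G) : ℤ := (S.germ g).choose

lemma χ_spec (g : G) : ∃ ε : Ω, ∀ t ≤ ε, g • t = S.z ^ S.χ g • t := (S.germ g).choose_spec

lemma χ_eq {g : G} {a : ℤ} (h : ∃ ε : Ω, ∀ t ≤ ε, g • t = S.z ^ a • t) : S.χ g = a := by
  obtain ⟨ε, h⟩ := h
  obtain ⟨ε', h'⟩ := S.χ_spec g
  apply S.zpow_inj (t := min ε ε')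
  rw [← h _ (min_le_left _ _), ← h' _ (min_le_right _ _)]

lemma χ_mul (g h : G) : S.χ (g * h) = S.χ g + S.χ h := by
  obtain ⟨ε, hg⟩ := S.χ_spec g
  obtain ⟨ε', hh⟩ := S.χ_spec h
  refine S.χ_eq ⟨min ε' (h⁻¹ • ε), fun t ht => ?_⟩
  have h1 : h • t ≤ ε := by
    have := (S.le_iff h _ _).2 (ht.trans (min_le_right _ _))
    rwa [smul_inv_smul] at this
  rw [mul_smul, hg _ h1, hh _ (ht.trans (min_le_left _ _)), zpow_add, mul_smul]

lemma χ_eq_zero_iff (g : G) : S.χ g = 0 ↔ ∃ ε : Ω, ∀ t ≤ ε, g • t = t := by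
  constructor
  · intro h
    simpa [h] using S.χ_spec g
  · intro h
    exact S.χ_eq (by simpa using h)

lemma χ_conj (g h : G) : S.χ (h * g * h⁻¹) = S.χ g := by
  rw [S.χ_mul, S.χ_mul, hom_inv S.χ_mul]; ring

include S in
lemma commute_of_disjoint {g h : G} {s : Ω} (hg : ∀ t ≤ s, g • t = t)
    (hh : ∀ t, s ≤ t → h • t = t) : Commute g h := by
  have key : ∀ t : Ω, g • h • t = h • g • t := by
    intro t
    rcases le_total t s with ht | ht
    · have : h • t ≤ s := by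
        rw [← hh s le_rfl]; exact (S.le_iff h _ _).2 ht
      rw [hg _ this, hg _ ht]
    · have : s ≤ g • t := by
        rw [← hg s le_rfl]; exact (S.le_iff g _ _).2 ht
      rw [hh _ this, hh _ ht]
  have := S.faith ((g * h)⁻¹ * (h * g)) (fun t => by
    rw [mul_smul, mul_smul, ← key, ← mul_smul g, inv_smul_smul])
  exact inv_mul_eq_one.1 this

/-- The elements fixing everything below `s`. -/
def fixBelow (s : Ω) : Subgroup G where
  carrier := {g | ∀ t ≤ s, g • t = t}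
  mul_mem' := fun {a b} ha hb t ht => by rw [mul_smul, hb t ht, ha t ht]
  one_mem' := fun t _ => one_smul _ _
  inv_mem' := fun {a} ha t ht => by rw [inv_smul_eq_iff, ha t ht]

include S in
lemma conj_fixBelow {s : Ω} {g : G} (u : G) (hg : ∀ t ≤ s, g • t = t) :
    ∀ t ≤ u • s, (u * g * u⁻¹) • t = t := by
  intro t ht
  have : u⁻¹ • t ≤ s := by
    have := (S.le_iff u⁻¹ _ _).2 ht
    rwa [inv_smul_smul] at this
  rw [mul_smul, mul_smul, hg _ this, smul_inv_smul]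

include S in
lemma conj_fixAbove {s : Ω} {g : G} (u : G) (hg : ∀ t, s ≤ t → g • t = t) :
    ∀ t, u • s ≤ t → (u * g * u⁻¹) • t = t := by
  intro t ht
  have : s ≤ u⁻¹ • t := by
    have := (S.le_iff u⁻¹ _ _).2 ht
    rwa [inv_smul_smul] at this
  rw [mul_smul, mul_smul, hg _ this, smul_inv_smul]

lemma exists_moved (s : Ω) : ∃ f : G, S.χ f = 0 ∧ ∃ r ≤ s, f • r ≠ r := by
  have h1 : ∃ r : Ω, S.x • r ≠ r := by
    by_contra h
    simp only [not_exists, not_not] at h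
    exact S.x_ne (S.faith _ h)
  obtain ⟨r, hr⟩ := h1
  obtain ⟨n, hn⟩ := S.z_cof r s
  refine ⟨S.z ^ n * S.x * (S.z ^ n)⁻¹, ?_, S.z ^ n • r, hn.le, ?_⟩
  · rw [S.χ_conj, S.χ_eq_zero_iff]; exact S.x_germ
  · rw [mul_smul, mul_smul, inv_smul_smul]
    exact fun h => hr (smul_left_cancel _ h)

/-- The basin of the lower end under a cyclic subgroup. -/
def Bas (w : G) (t : Ω) : Prop := ∀ δ : Ω, ∃ m : ℤ, w ^ m • t < δ

lemma contract {w : G} (hw : 0 < S.χ w) :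
    ∃ ε : Ω, ∀ t ≤ ε, ∀ n : ℕ, w ^ n • t ≤ S.z ^ n • t := by
  obtain ⟨ε, hε⟩ := S.χ_spec w
  refine ⟨ε, fun t ht n => ?_⟩
  induction n with
  | zero => simp
  | succ n ih =>
    rw [pow_succ', pow_succ', mul_smul, mul_smul, hε _ (ih.trans ((S.zpow_le n t).trans ht))]
    refine (S.zpow_anti' (a := 1) hw _).trans ?_
    rw [zpow_one]
    exact (S.le_iff _ _ _).2 ih

lemma bas_small {w : G} (hw : S.χ w ≠ 0) : ∃ ε : Ω, ∀ t ≤ ε, Bas w t := by
  rcases lt_or_gt_of_ne hw with h | h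
  · obtain ⟨ε, hε⟩ := S.contract (w := w⁻¹) (by rw [hom_inv S.χ_mul]; omega)
    refine ⟨ε, fun t ht δ => ?_⟩
    obtain ⟨n, hn⟩ := S.z_cof t δ
    refine ⟨-n, ?_⟩
    rw [zpow_neg, zpow_natCast, ← inv_pow]
    exact (hε t ht n).trans_lt hn
  · obtain ⟨ε, hε⟩ := S.contract h
    refine ⟨ε, fun t ht δ => ?_⟩
    obtain ⟨n, hn⟩ := S.z_cof t δ
    refine ⟨n, ?_⟩
    rw [zpow_natCast]
    exact (hε t ht n).trans_lt hn

include S in
lemma bas_smul {g w : G} (h : Commute g w) {t : Ω} (ht : Bas w t) : Bas w (g • t) := by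
  intro δ
  obtain ⟨m, hm⟩ := ht (g⁻¹ • δ)
  refine ⟨m, ?_⟩
  rw [← mul_smul, ← (h.zpow_right m).eq, mul_smul]
  have := S.mono g _ _ hm
  rwa [smul_inv_smul] at this

lemma bas_fix {g w : G} (hg : S.χ g = 0) (h : Commute g w) {t : Ω} (ht : Bas w t) :
    g • t = t := by
  obtain ⟨ε, hε⟩ := (S.χ_eq_zero_iff g).1 hg
  obtain ⟨m, hm⟩ := ht ε
  have := hε _ hm.le
  rw [← mul_smul, (h.zpow_right m).eq, mul_smul] at this
  exact smul_left_cancel _ this

lemma bas_of_bas {g w : G} (hw : S.χ w ≠ 0) (h : Commute g w) {t : Ω} (ht : Bas g t) :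
    Bas w t := by
  obtain ⟨ε, hε⟩ := S.bas_small hw
  obtain ⟨m, hm⟩ := ht ε
  have := S.bas_smul (h.zpow_left m).inv_left (hε _ hm.le)
  rwa [inv_smul_smul] at this

noncomputable def endData : EndData G where
  χ := S.χ
  χ_mul := S.χ_mul
  z := S.z
  χ_z := S.χ_eq ⟨S.t₀, fun t _ => by rw [zpow_one]⟩
  A := fun j => fixBelow (S.z ^ j • S.t₀)
  A_mono := fun i j hij g hg t ht => hg t (ht.trans (S.zpow_anti' hij _))
  A_conj := fun j g => by
    constructor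
    · intro hg t ht
      refine S.conj_fixBelow S.z hg t ?_
      rwa [← mul_smul, ← zpow_one_add, add_comm]
    · intro hg t ht
      have := S.conj_fixBelow S.z⁻¹ hg t (by
        rwa [← mul_smul, add_comm, zpow_one_add, inv_mul_cancel_left])
      simpa [mul_assoc] using this
  A_ker := fun j g hg => (S.χ_eq_zero_iff g).2 ⟨_, hg⟩
  ker_A := fun g hg => by
    obtain ⟨ε, hε⟩ := (S.χ_eq_zero_iff g).1 hg
    obtain ⟨n, hn⟩ := S.z_cof S.t₀ ε
    exact ⟨n, fun t ht => hε t (ht.trans (by rw [zpow_natCast]; exact hn.le))⟩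
  A_proper := fun j => by
    obtain ⟨f, hf, r, hr, hfr⟩ := S.exists_moved (S.z ^ j • S.t₀)
    exact ⟨f, hf, fun h => hfr (h r hr)⟩
  cent1 := by
    obtain ⟨M, hM⟩ := S.y_fix
    obtain ⟨n, hn⟩ := S.z_cof M S.t₀
    refine ⟨S.z ^ n * S.y * (S.z ^ n)⁻¹, ?_, fun g hg => ?_⟩
    · rw [S.χ_conj, S.χ_eq (a := 1) (by simpa using S.y_germ)]
      exact one_ne_zero
    · refine S.commute_of_disjoint (s := S.t₀) (fun t ht => hg t (by simpa using ht))
        fun t ht => ?_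
      exact S.conj_fixAbove _ hM t (hn.le.trans ht)
  cent2 := fun w hw => by
    obtain ⟨ε, hε⟩ := S.bas_small hw
    obtain ⟨n, hn⟩ := S.z_cof S.t₀ ε
    refine ⟨n, fun g hg hc t ht => S.bas_fix hg hc (hε t (ht.trans ?_))⟩
    rw [zpow_natCast]; exact hn.le
  key := fun g hg => by
    obtain ⟨ε, hε⟩ := S.contract (w := g⁻¹) (by rw [hom_inv S.χ_mul]; omega)
    obtain ⟨f, hf, r, hr, hfr⟩ := S.exists_moved ε
    refine ⟨f, fun w hw hgw hc => hfr ?_⟩
    have hχ : S.χ (g * f * g⁻¹ * f⁻¹) = 0 := by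
      rw [S.χ_mul, S.χ_conj, hom_inv S.χ_mul]; ring
    have hfix : ∀ t ≤ ε, (g * f * g⁻¹ * f⁻¹) • t = t := by
      intro t ht
      refine S.bas_fix hχ hc (S.bas_of_bas hw hgw fun δ => ?_)
      obtain ⟨n, hn⟩ := S.z_cof t δ
      refine ⟨-n, ?_⟩
      rw [zpow_neg, zpow_natCast, ← inv_pow]
      exact (hε t ht n).trans_lt hn
    have hdown : ∀ n : ℕ, f • (g⁻¹ ^ n • r) = g⁻¹ ^ n • r → f • r = r := by
      intro n
      induction n with
      | zero => simp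
      | succ n ih =>
        intro h
        apply ih
        have h1 := hfix _ ((hε r hr n).trans ((S.zpow_le n r).trans hr))
        rw [pow_succ', mul_smul] at h
        set q := g⁻¹ ^ n • r
        rw [mul_smul, mul_smul, mul_smul, ← eq_inv_smul_iff, ← h] at h1
        have h2 := smul_left_cancel _ (smul_left_cancel _ h1)
        rw [inv_smul_eq_iff] at h2
        exact h2.symm
    obtain ⟨δ, hδ⟩ := (S.χ_eq_zero_iff f).1 hf
    obtain ⟨n, hn⟩ := S.z_cof r δ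
    exact hdown n (hδ _ ((hε r hr n).trans hn.le))

end Setup

theorem not_integrable_of_setup {G Ω : Type*} [Group G] [LinearOrder Ω] [MulAction G Ω]
    (S : Setup G Ω) (T : Setup G Ωᵒᵈ) (hx : T.y = S.x) {H : Type*} [Group H]
    (e : commutator H ≃* G) : False := by
  refine not_integrable S.endData T.endData ?_ S.x ((S.χ_eq_zero_iff _).2 S.x_germ) ?_ e
  · intro g₁ g₂ y h₁ h₂ hy
    obtain ⟨ε₁, h₁⟩ := (S.χ_eq_zero_iff _).1 h₁
    obtain ⟨ε₂, h₂⟩ := (S.χ_eq_zero_iff _).1 h₂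
    obtain ⟨M, hM⟩ := (T.χ_eq_zero_iff _).1 hy
    have hM' : ∀ t : Ω, OrderDual.ofDual M ≤ t → y • t = t := fun t ht => hM (OrderDual.toDual t) ht
    obtain ⟨n, hn⟩ := S.z_cof (OrderDual.ofDual M) (min ε₁ ε₂)
    have hfix := S.conj_fixAbove (S.z ^ n) hM'
    exact ⟨S.z ^ n,
      S.commute_of_disjoint (s := ε₁) h₁ fun t ht =>
        hfix t (hn.le.trans ((min_le_left _ _).trans ht)),
      S.commute_of_disjoint (s := ε₂) h₂ fun t ht =>
        hfix t (hn.le.trans ((min_le_right _ _).trans ht))⟩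
  · change T.χ S.x ≠ 0
    rw [← hx, T.χ_eq (a := 1) (by simpa using T.y_germ)]
    exact one_ne_zero

end Pool.Agent.Lib.MP_57deef_al
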