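import Pool.Agent.Lib.MP_57deef_al.Group
import Pool.Agent.Lib.MP_57deef_al.Setup

set_option autoImplicit false

namespace Pool.Agent.Lib.MP_57deef_al

open unitInterval

/-- A homeomorphism of `[0,1]` from a pair of inverse real functions. -/
def mkHomeo (φ ψ : ℝ → ℝ) (hφ : Continuous φ) (hψ : Continuous ψ) (mφ : ∀ t ∈ I, φ t ∈ I)
    (mψ : ∀ t ∈ I, ψ t ∈ I) (h1 : ∀ t, ψ (φ t) = t) (h2 : ∀ t, φ (ψ t) = t) : I ≃ₜ I where
  toFun t := ⟨φ t, mφ t t.2⟩
  invFun t := ⟨ψ t, mψ t t.2⟩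
  left_inv t := Subtype.ext (h1 t)
  right_inv t := Subtype.ext (h2 t)
  continuous_toFun := (hφ.comp continuous_subtype_val).subtype_mk _
  continuous_invFun := (hψ.comp continuous_subtype_val).subtype_mk _

noncomputable def φ₀ (t : ℝ) : ℝ := max (t / 2) (max (t - 1 / 4) (2 * t - 1))
noncomputable def ψ₀ (s : ℝ) : ℝ := min (2 * s) (min (s + 1 / 4) ((s + 1) / 2))
noncomputable def φ₁ (t : ℝ) : ℝ := min t (max (t / 2 + 1 / 4) (max (t - 1 / 8) (2 * t - 1)))
noncomputable def ψ₁ (s : ℝ) : ℝ := max s (min (2 * s - 1 / 2) (min (s + 1 / 8) ((s + 1) / 2)))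

lemma φ₀_a {t : ℝ} (h : t ≤ 1 / 2) : φ₀ t = t / 2 := by
  unfold φ₀; simp only [max_def]; split_ifs <;> linarith
lemma φ₀_b {t : ℝ} (h : 1 / 2 ≤ t) (h' : t ≤ 3 / 4) : φ₀ t = t - 1 / 4 := by
  unfold φ₀; simp only [max_def]; split_ifs <;> linarith
lemma φ₀_c {t : ℝ} (h : 3 / 4 ≤ t) : φ₀ t = 2 * t - 1 := by
  unfold φ₀; simp only [max_def]; split_ifs <;> linarith
lemma ψ₀_a {t : ℝ} (h : t ≤ 1 / 4) : ψ₀ t = 2 * t := by
  unfold ψ₀; simp only [min_def]; split_ifs <;> linarith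
lemma ψ₀_b {t : ℝ} (h : 1 / 4 ≤ t) (h' : t ≤ 1 / 2) : ψ₀ t = t + 1 / 4 := by
  unfold ψ₀; simp only [min_def]; split_ifs <;> linarith
lemma ψ₀_c {t : ℝ} (h : 1 / 2 ≤ t) : ψ₀ t = (t + 1) / 2 := by
  unfold ψ₀; simp only [min_def]; split_ifs <;> linarith
lemma φ₁_a {t : ℝ} (h : t ≤ 1 / 2) : φ₁ t = t := by
  unfold φ₁; simp only [max_def, min_def]; split_ifs <;> linarith
lemma φ₁_b {t : ℝ} (h : 1 / 2 ≤ t) (h' : t ≤ 3 / 4) : φ₁ t = t / 2 + 1 / 4 := by
  unfold φ₁; simp only [max_def, min_def]; split_ifs <;> linarith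
lemma φ₁_c {t : ℝ} (h : 3 / 4 ≤ t) (h' : t ≤ 7 / 8) : φ₁ t = t - 1 / 8 := by
  unfold φ₁; simp only [max_def, min_def]; split_ifs <;> linarith
lemma φ₁_d {t : ℝ} (h : 7 / 8 ≤ t) (h' : t ≤ 1) : φ₁ t = 2 * t - 1 := by
  unfold φ₁; simp only [max_def, min_def]; split_ifs <;> linarith
lemma φ₁_e {t : ℝ} (h : 1 ≤ t) : φ₁ t = t := by
  unfold φ₁; simp only [max_def, min_def]; split_ifs <;> linarith
lemma ψ₁_a {t : ℝ} (h : t ≤ 1 / 2) : ψ₁ t = t := by
  unfold ψ₁; simp only [max_def, min_def]; split_ifs <;> linarith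
lemma ψ₁_b {t : ℝ} (h : 1 / 2 ≤ t) (h' : t ≤ 5 / 8) : ψ₁ t = 2 * t - 1 / 2 := by
  unfold ψ₁; simp only [max_def, min_def]; split_ifs <;> linarith
lemma ψ₁_c {t : ℝ} (h : 5 / 8 ≤ t) (h' : t ≤ 3 / 4) : ψ₁ t = t + 1 / 8 := by
  unfold ψ₁; simp only [max_def, min_def]; split_ifs <;> linarith
lemma ψ₁_d {t : ℝ} (h : 3 / 4 ≤ t) (h' : t ≤ 1) : ψ₁ t = (t + 1) / 2 := by
  unfold ψ₁; simp only [max_def, min_def]; split_ifs <;> linarith
lemma ψ₁_e {t : ℝ} (h : 1 ≤ t) : ψ₁ t = t := by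
  unfold ψ₁; simp only [max_def, min_def]; split_ifs <;> linarith

noncomputable def x₀ : I ≃ₜ I :=
  mkHomeo φ₀ ψ₀ (by unfold φ₀; fun_prop) (by unfold ψ₀; fun_prop)
    (fun t ⟨h0, h1⟩ => by
      unfold φ₀; simp only [max_def]; constructor <;> split_ifs <;> linarith)
    (fun t ⟨h0, h1⟩ => by
      unfold ψ₀; simp only [min_def]; constructor <;> split_ifs <;> linarith)
    (fun t => by
      rcases le_total t (1 / 2) with h | h
      · rw [φ₀_a h, ψ₀_a (by linarith)]; ring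
      rcases le_total t (3 / 4) with h' | h'
      · rw [φ₀_b h h', ψ₀_b (by linarith) (by linarith)]; ring
      · rw [φ₀_c h', ψ₀_c (by linarith)]; ring)
    (fun t => by
      rcases le_total t (1 / 4) with h | h
      · rw [ψ₀_a h, φ₀_a (by linarith)]; ring
      rcases le_total t (1 / 2) with h' | h'
      · rw [ψ₀_b h h', φ₀_b (by linarith) (by linarith)]; ring
      · rw [ψ₀_c h', φ₀_c (by linarith)]; ring)

noncomputable def x₁ : I ≃ₜ I :=
  mkHomeo φ₁ ψ₁ (by unfold φ₁; fun_prop) (by unfold ψ₁; fun_prop)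
    (fun t ⟨h0, h1⟩ => by
      unfold φ₁; simp only [max_def, min_def]; constructor <;> split_ifs <;> linarith)
    (fun t ⟨h0, h1⟩ => by
      unfold ψ₁; simp only [max_def, min_def]; constructor <;> split_ifs <;> linarith)
    (fun t => by
      rcases le_total t (1 / 2) with h | h
      · rw [φ₁_a h, ψ₁_a h]
      rcases le_total t (3 / 4) with h' | h'
      · rw [φ₁_b h h', ψ₁_b (by linarith) (by linarith)]; ring
      rcases le_total t (7 / 8) with h'' | h''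
      · rw [φ₁_c h' h'', ψ₁_c (by linarith) (by linarith)]; ring
      rcases le_total t 1 with h''' | h'''
      · rw [φ₁_d h'' h''', ψ₁_d (by linarith) (by linarith)]; ring
      · rw [φ₁_e h''', ψ₁_e h'''])
    (fun t => by
      rcases le_total t (1 / 2) with h | h
      · rw [ψ₁_a h, φ₁_a h]
      rcases le_total t (5 / 8) with h' | h'
      · rw [ψ₁_b h h', φ₁_b (by linarith) (by linarith)]; ring
      rcases le_total t (3 / 4) with h'' | h''
      · rw [ψ₁_c h' h'', φ₁_c (by linarith) (by linarith)]; ring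
      rcases le_total t 1 with h''' | h'''
      · rw [ψ₁_d h'' h''', φ₁_d (by linarith) (by linarith)]; ring
      · rw [ψ₁_e h''', φ₁_e h'''])

lemma x₀_apply (t : I) : (x₀ t : ℝ) = φ₀ t := rfl
lemma x₀_inv_apply (t : I) : (x₀⁻¹ t : ℝ) = ψ₀ t := rfl
lemma x₁_apply (t : I) : (x₁ t : ℝ) = φ₁ t := rfl

lemma dy (m : ℤ) (k : ℤ) {r : ℝ} (h : r = m * 2 ^ k) : r ∈ Subring.closure {(1 / 2 : ℝ)} := by
  rw [h]; exact mul_mem (intCast_mem _ m) (two_zpow_mem k)

lemma x₀_mem : IsThompson x₀ := by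
  refine ⟨fun a b hab => ?_, {1 / 2, 3 / 4}, ?_, fun u v huv hB => ?_⟩
  · have h : (a : ℝ) < b := hab
    change φ₀ a < φ₀ b
    unfold φ₀
    exact max_lt_max (by linarith) (max_lt_max (by linarith) (by linarith))
  · intro b hb
    simp only [Finset.mem_insert, Finset.mem_singleton] at hb
    rcases hb with rfl | rfl
    · exact dy 1 (-1) (by norm_num)
    · exact dy 3 (-2) (by norm_num)
  · have h1 := hB (1 / 2) (by simp)
    have h2 := hB (3 / 4) (by simp)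
    simp only [not_and_or, not_lt] at h1 h2
    rcases h1 with h1 | h1
    · rcases h2 with h2 | h2
      · exact ⟨1, -1, fun x (hx : (u : ℝ) ≤ x) _ => by
          rw [x₀_apply, φ₀_c (by linarith)]; ring⟩
      · exact ⟨0, -1 / 4, fun x (hx : (u : ℝ) ≤ x) (hx' : (x : ℝ) ≤ v) => by
          rw [x₀_apply, φ₀_b (by linarith) (by linarith)]; ring⟩
    · exact ⟨-1, 0, fun x _ (hx' : (x : ℝ) ≤ v) => by
        rw [x₀_apply, φ₀_a (by linarith)]; ring⟩

lemma x₁_mem : IsThompson x₁ := by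
  refine ⟨fun a b hab => ?_, {1 / 2, 3 / 4, 7 / 8}, ?_, fun u v huv hB => ?_⟩
  · have h : (a : ℝ) < b := hab
    change φ₁ a < φ₁ b
    unfold φ₁
    exact min_lt_min h (max_lt_max (by linarith) (max_lt_max (by linarith) (by linarith)))
  · intro b hb
    simp only [Finset.mem_insert, Finset.mem_singleton] at hb
    rcases hb with rfl | rfl | rfl
    · exact dy 1 (-1) (by norm_num)
    · exact dy 3 (-2) (by norm_num)
    · exact dy 7 (-3) (by norm_num)
  · have h1 := hB (1 / 2) (by simp)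
    have h2 := hB (3 / 4) (by simp)
    have h3 := hB (7 / 8) (by simp)
    simp only [not_and_or, not_lt] at h1 h2 h3
    rcases h1 with h1 | h1
    · rcases h2 with h2 | h2
      · rcases h3 with h3 | h3
        · exact ⟨1, -1, fun x (hx : (u : ℝ) ≤ x) _ => by
            rw [x₁_apply, φ₁_d (by linarith) x.2.2]; ring⟩
        · exact ⟨0, -1 / 8, fun x (hx : (u : ℝ) ≤ x) (hx' : (x : ℝ) ≤ v) => by
            rw [x₁_apply, φ₁_c (by linarith) (by linarith)]; ring⟩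
      · exact ⟨-1, 1 / 4, fun x (hx : (u : ℝ) ≤ x) (hx' : (x : ℝ) ≤ v) => by
          rw [x₁_apply, φ₁_b (by linarith) (by linarith)]; ring⟩
    · exact ⟨0, 0, fun x _ (hx' : (x : ℝ) ≤ v) => by
        rw [x₁_apply, φ₁_a (by linarith)]; ring⟩

/-- Linear near `0` with slope `2 ^ k`. -/
def Lin0 (g : I ≃ₜ I) (k : ℤ) : Prop :=
  ∃ ε : ℝ, 0 < ε ∧ ∀ t : I, (t : ℝ) ≤ ε → (g t : ℝ) = 2 ^ k * t

/-- Linear near `1` with slope `2 ^ k`. -/
def Lin1 (g : I ≃ₜ I) (k : ℤ) : Prop :=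
  ∃ ε : ℝ, 0 < ε ∧ ∀ t : I, 1 - (t : ℝ) ≤ ε → 1 - (g t : ℝ) = 2 ^ k * (1 - t)

lemma Lin0.mul {f g : I ≃ₜ I} {k l : ℤ} (hf : Lin0 f k) (hg : Lin0 g l) :
    Lin0 (f * g) (k + l) := by
  obtain ⟨ε, hε, hf⟩ := hf
  obtain ⟨δ, hδ, hg⟩ := hg
  have hp : (0 : ℝ) < 2 ^ l := by positivity
  refine ⟨min δ (ε / 2 ^ l), by positivity, fun t ht => ?_⟩
  have h1 := hg t (ht.trans (min_le_left _ _))
  have h2 : (g t : ℝ) ≤ ε := by
    have := ht.trans (min_le_right _ _)
    rw [le_div_iff₀ hp] at this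
    rw [h1]; linarith
  change (f (g t) : ℝ) = _
  rw [hf _ h2, h1, zpow_add₀ two_ne_zero]; ring

lemma Lin1.mul {f g : I ≃ₜ I} {k l : ℤ} (hf : Lin1 f k) (hg : Lin1 g l) :
    Lin1 (f * g) (k + l) := by
  obtain ⟨ε, hε, hf⟩ := hf
  obtain ⟨δ, hδ, hg⟩ := hg
  have hp : (0 : ℝ) < 2 ^ l := by positivity
  refine ⟨min δ (ε / 2 ^ l), by positivity, fun t ht => ?_⟩
  have h1 := hg t (ht.trans (min_le_left _ _))
  have h2 : 1 - (g t : ℝ) ≤ ε := by
    have := ht.trans (min_le_right _ _)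
    rw [le_div_iff₀ hp] at this
    rw [h1]; linarith
  change 1 - (f (g t) : ℝ) = _
  rw [hf _ h2, h1, zpow_add₀ two_ne_zero]; ring

lemma lin0_zpow (a : ℤ) : Lin0 (x₀ ^ a) (-a) := by
  have h1 : Lin0 x₀ (-1) :=
    ⟨1 / 2, by norm_num, fun t ht => by rw [x₀_apply, φ₀_a ht]; ring⟩
  have h2 : Lin0 x₀⁻¹ 1 :=
    ⟨1 / 4, by norm_num, fun t ht => by rw [x₀_inv_apply, ψ₀_a ht]; ring⟩
  induction a using Int.induction_on with
  | zero => exact ⟨1, one_pos, fun t _ => by simp⟩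
  | succ n ih => rw [zpow_add_one, neg_add]; exact ih.mul h1
  | pred n ih => rw [zpow_sub_one, neg_sub']; simpa using ih.mul h2

lemma lin1_zpow (a : ℤ) : Lin1 (x₀⁻¹ ^ a) (-a) := by
  have h1 : Lin1 x₀⁻¹ (-1) :=
    ⟨1 / 2, by norm_num, fun t ht => by rw [x₀_inv_apply, ψ₀_c (by linarith)]; ring⟩
  have h2 : Lin1 x₀⁻¹⁻¹ 1 :=
    ⟨1 / 4, by norm_num, fun t ht => by rw [inv_inv, x₀_apply, φ₀_c (by linarith)]; ring⟩
  induction a using Int.induction_on with
  | zero => exact ⟨1, one_pos, fun t _ => by simp⟩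
  | succ n ih => rw [zpow_add_one, neg_add]; exact ih.mul h1
  | pred n ih => rw [zpow_sub_one, neg_sub']; simpa using ih.mul h2

lemma exists_gap (B : Finset ℝ) : ∃ ε : ℝ, 0 < ε ∧ ε < 1 ∧ ∀ b ∈ B, ¬ (0 < b ∧ b < ε) := by
  classical
  induction B using Finset.induction_on with
  | empty => exact ⟨1 / 2, by norm_num, by norm_num, by simp⟩
  | insert b B _ ih =>
    obtain ⟨ε, h0, h1, h⟩ := ih
    by_cases hb : 0 < b
    · refine ⟨min ε b, lt_min h0 hb, (min_le_left _ _).trans_lt h1, fun c hc => ?_⟩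
      rcases Finset.mem_insert.1 hc with rfl | hc
      · exact fun h2 => absurd h2.2 (not_lt.2 (min_le_right _ _))
      · exact fun h2 => h c hc ⟨h2.1, h2.2.trans_le (min_le_left _ _)⟩
    · refine ⟨ε, h0, h1, fun c hc => ?_⟩
      rcases Finset.mem_insert.1 hc with rfl | hc
      · exact fun h2 => hb h2.1
      · exact h c hc

lemma IsThompson.lin0 {g : I ≃ₜ I} (hg : IsThompson g) : ∃ k, Lin0 g k := by
  obtain ⟨hm, B, -, hpl⟩ := hg
  obtain ⟨ε, h0, h1, h⟩ := exists_gap B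
  obtain ⟨k, c, hkc⟩ := hpl 0 ⟨ε, h0.le, h1.le⟩ h0 h
  have hc := hkc 0 le_rfl h0.le
  rw [map_zero_of_mono hm] at hc
  simp only [Set.Icc.coe_zero, mul_zero, zero_add] at hc
  exact ⟨k, ε, h0, fun t ht => by rw [hkc t unitInterval.nonneg' ht, ← hc, add_zero]⟩

lemma IsThompson.lin1 {g : I ≃ₜ I} (hg : IsThompson g) : ∃ k, Lin1 g k := by
  classical
  obtain ⟨hm, B, -, hpl⟩ := hg
  obtain ⟨ε, h0, h1, h⟩ := exists_gap (B.image (fun b => 1 - b))
  have hlt : (⟨1 - ε, by linarith, by linarith⟩ : I) < 1 := by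
    change 1 - ε < 1; linarith
  obtain ⟨k, c, hkc⟩ := hpl ⟨1 - ε, by linarith, by linarith⟩ 1 hlt (by
    rintro b hb ⟨h2, h3⟩
    simp only [Set.Icc.coe_one] at h2 h3
    exact h (1 - b) (Finset.mem_image_of_mem _ hb) ⟨by linarith, by linarith⟩)
  have hc := hkc 1 hlt.le le_rfl
  rw [map_one_of_mono hm] at hc
  simp only [Set.Icc.coe_one, mul_one] at hc
  refine ⟨k, ε, h0, fun t ht => ?_⟩
  rw [hkc t (by change 1 - ε ≤ (t : ℝ); linarith) unitInterval.le_one']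
  linarith

/-- The open unit interval. -/
abbrev Ω : Type := Set.Ioo (0 : ℝ) 1

def toI (t : Ω) : I := ⟨t, t.2.1.le, t.2.2.le⟩

instance : MulAction thompsonF Ω where
  smul g t := ⟨g.1 (toI t), by
    have hm : StrictMono g.1 := g.2.1
    constructor
    · have := hm (show (0 : I) < toI t from t.2.1)
      rwa [map_zero_of_mono hm] at this
    · have := hm (show toI t < (1 : I) from t.2.2)
      rwa [map_one_of_mono hm] at this⟩
  one_smul _ := rfl
  mul_smul _ _ _ := rfl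

lemma smul_coe (g : thompsonF) (t : Ω) : ((g • t : Ω) : ℝ) = g.1 (toI t) := rfl

lemma toI_coe (t : Ω) : (toI t : ℝ) = t := rfl

lemma mono_F (g : thompsonF) (s t : Ω) (h : s < t) : g • s < g • t :=
  g.2.1 (show toI s < toI t from h)

lemma faith_F (g : thompsonF) (h : ∀ t : Ω, g • t = t) : g = 1 := by
  apply Subtype.ext
  ext t
  change (g.1 t : ℝ) = t
  rcases (unitInterval.nonneg' (t := t)).eq_or_lt with h0 | h0
  · rw [← h0, map_zero_of_mono g.2.1]
  rcases (unitInterval.le_one' (t := t)).eq_or_lt with h1 | h1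
  · rw [h1, map_one_of_mono g.2.1]
  exact congrArg (Subtype.val : Ω → ℝ) (h ⟨t, h0, h1⟩)

noncomputable def zF : thompsonF := ⟨x₀, x₀_mem⟩
noncomputable def xF : thompsonF := ⟨x₁, x₁_mem⟩

lemma zF_smul (t : Ω) : ((zF • t : Ω) : ℝ) = φ₀ t := rfl
lemma xF_smul (t : Ω) : ((xF • t : Ω) : ℝ) = φ₁ t := rfl

lemma zF_lt (t : Ω) : zF • t < t := by
  change φ₀ t < t
  obtain ⟨h0, h1⟩ := t.2
  unfold φ₀
  exact max_lt (by linarith) (max_lt (by linarith) (by linarith))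

lemma zF_cof (s t : Ω) : ∃ n : ℕ, zF ^ n • s < t := by
  by_contra hcon
  simp only [not_exists, not_lt] at hcon
  obtain ⟨hs0, hs1⟩ := s.2
  obtain ⟨ht0, ht1⟩ := t.2
  set c : ℝ := min (t / 2) (min (1 / 4) (1 - s)) with hc
  have hc0 : 0 < c := lt_min (by linarith) (lt_min (by norm_num) (by linarith))
  have c1 : c ≤ t / 2 := min_le_left _ _
  have c2 : c ≤ 1 / 4 := (min_le_right _ _).trans (min_le_left _ _)
  have c3 : c ≤ 1 - s := (min_le_right _ _).trans (min_le_right _ _)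
  have key : ∀ n : ℕ, ((zF ^ n • s : Ω) : ℝ) ≤ s - n * c := by
    intro n
    induction n with
    | zero => simp
    | succ n ih =>
      rw [pow_succ', mul_smul, zF_smul]
      have h1 : (t : ℝ) ≤ (zF ^ n • s : Ω) := hcon n
      have h2 : (0 : ℝ) ≤ n * c := by positivity
      unfold φ₀
      push_cast
      exact max_le (by linarith) (max_le (by linarith) (by linarith))
  obtain ⟨n, hn⟩ := exists_nat_gt (1 / c)
  rw [div_lt_iff₀ hc0] at hn
  have h1 : (t : ℝ) ≤ (zF ^ n • s : Ω) := hcon n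
  linarith [key n]

noncomputable def half : Ω := ⟨1 / 2, by norm_num, by norm_num⟩

lemma xF_low (t : Ω) (ht : (t : ℝ) ≤ 1 / 2) : xF • t = t :=
  Subtype.ext (by rw [xF_smul, φ₁_a ht])

lemma xF_high (t : Ω) (ht : 7 / 8 ≤ (t : ℝ)) : xF • t = zF • t :=
  Subtype.ext (by rw [xF_smul, zF_smul, φ₁_d ht t.2.2.le, φ₀_c (by linarith)])

lemma yF_high (t : Ω) (ht : 7 / 8 ≤ (t : ℝ)) : (xF * zF⁻¹) • t = t := by
  have h1 : t ≤ zF⁻¹ • t := by
    have := zF_lt (zF⁻¹ • t)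
    rw [smul_inv_smul] at this
    exact this.le
  rw [mul_smul, xF_high _ (ht.trans h1), smul_inv_smul]

lemma yF_low (t : Ω) (ht : (t : ℝ) ≤ 1 / 2) : (xF * zF⁻¹)⁻¹ • t = zF • t := by
  rw [mul_inv_rev, inv_inv, mul_smul]
  congr 1
  rw [inv_smul_eq_iff, xF_low t ht]

noncomputable def setup₀ : Setup thompsonF Ω where
  t₀ := half
  mono := mono_F
  faith := faith_F
  z := zF
  z_lt := zF_lt
  z_cof := zF_cof
  germ g := by
    obtain ⟨k, ε, hε, hk⟩ := g.2.lin0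
    obtain ⟨δ, hδ, hz⟩ := lin0_zpow (-k)
    refine ⟨-k, ⟨min (min ε δ) (1 / 2), by positivity,
      (min_le_right _ _).trans_lt (by norm_num)⟩, fun t ht => Subtype.ext ?_⟩
    have ht' : (t : ℝ) ≤ min ε δ := le_trans ht (min_le_left _ _)
    rw [smul_coe, smul_coe, hk _ (ht'.trans (min_le_left _ _))]
    have := hz (toI t) (ht'.trans (min_le_right _ _))
    rw [neg_neg] at this
    rw [← this]; rfl
  x := xF⁻¹
  x_germ := ⟨half, fun t ht => by rw [inv_smul_eq_iff, xF_low t ht]⟩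
  x_ne := fun h => by
    have h1 := xF_high ⟨7 / 8, by norm_num, by norm_num⟩ le_rfl
    rw [inv_eq_one.1 h, one_smul] at h1
    exact (zF_lt _).ne' h1
  y := (xF * zF⁻¹)⁻¹
  y_germ := ⟨half, fun t ht => yF_low t ht⟩
  y_fix := ⟨⟨7 / 8, by norm_num, by norm_num⟩, fun t ht => by rw [inv_smul_eq_iff, yF_high t ht]⟩

noncomputable def setup₁ : Setup thompsonF Ωᵒᵈ where
  t₀ := OrderDual.toDual half
  mono := fun g s t h => mono_F g (OrderDual.ofDual t) (OrderDual.ofDual s) h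
  faith := fun g h => faith_F g (fun t => h (OrderDual.toDual t))
  z := zF⁻¹
  z_lt := fun t => by
    have := zF_lt (zF⁻¹ • OrderDual.ofDual t)
    rw [smul_inv_smul] at this
    exact this
  z_cof := fun s t => by
    obtain ⟨n, hn⟩ := zF_cof (OrderDual.ofDual t) (OrderDual.ofDual s)
    refine ⟨n, ?_⟩
    have := mono_F (zF ^ n)⁻¹ _ _ hn
    rw [inv_smul_smul, ← inv_pow] at this
    exact this
  germ g := by
    obtain ⟨k, ε, hε, hk⟩ := g.2.lin1
    obtain ⟨δ, hδ, hz⟩ := lin1_zpow (-k)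
    have h0 : 0 < min (min ε δ) (1 / 2) := by positivity
    have h1 : min (min ε δ) (1 / 2) ≤ 1 / 2 := min_le_right _ _
    refine ⟨-k, OrderDual.toDual ⟨1 - min (min ε δ) (1 / 2), by linarith, by linarith⟩,
      fun t ht => Subtype.ext ?_⟩
    have ht0 : 1 - min (min ε δ) (1 / 2) ≤ ((OrderDual.ofDual t : Ω) : ℝ) := ht
    have ht' : 1 - ((OrderDual.ofDual t : Ω) : ℝ) ≤ min ε δ := by
      linarith [min_le_left (min ε δ) (1 / 2)]
    have h2 := hk (toI (OrderDual.ofDual t)) (ht'.trans (min_le_left _ _))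
    have h3 := hz (toI (OrderDual.ofDual t)) (ht'.trans (min_le_right _ _))
    rw [neg_neg, ← h2] at h3
    exact (sub_right_injective h3).symm
  x := xF * zF⁻¹
  x_germ := ⟨OrderDual.toDual ⟨7 / 8, by norm_num, by norm_num⟩,
    fun t ht => yF_high (OrderDual.ofDual t) ht⟩
  x_ne := fun h => by
    have h1 := yF_low half le_rfl
    rw [h, inv_one, one_smul] at h1
    exact (zF_lt _).ne' h1
  y := xF⁻¹
  y_germ := ⟨OrderDual.toDual ⟨7 / 8, by norm_num, by norm_num⟩, fun t ht => by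
    have h1 := yF_high (OrderDual.ofDual t) ht
    rw [mul_smul, ← eq_inv_smul_iff] at h1
    exact h1.symm⟩
  y_fix := ⟨OrderDual.toDual half, fun t ht => by
    have h1 := xF_low (OrderDual.ofDual t) ht
    rw [← eq_inv_smul_iff] at h1
    exact h1.symm⟩

theorem main {H : Type*} [Group H] (e : commutator H ≃* thompsonF) : False :=
  not_integrable_of_setup setup₀ setup₁ rfl e

end Pool.Agent.Lib.MP_57deef_al
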