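import Mathlib

set_option autoImplicit false

namespace Pool.Agent.Lib.MP_57deef_al

/-- A homeomorphism `f` of `[0,1]` is an element of Thompson's group `F` if it is increasing and
there is a finite set `B` of dyadic rationals (elements of the ring `ℤ[1/2]`) such that `f` is
affine, with slope an integer power of `2`, on every interval `[u,v]` whose interior contains no
point of `B`. -/
def IsThompson (f : unitInterval ≃ₜ unitInterval) : Prop :=
  StrictMono f ∧ ∃ B : Finset ℝ, (∀ b ∈ B, b ∈ Subring.closure {(1 / 2 : ℝ)}) ∧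
    ∀ u v : unitInterval, u < v → (∀ b ∈ B, ¬ ((u : ℝ) < b ∧ b < (v : ℝ))) →
      ∃ (k : ℤ) (c : ℝ), ∀ x : unitInterval, u ≤ x → x ≤ v → (f x : ℝ) = 2 ^ k * (x : ℝ) + c

end Pool.Agent.Lib.MP_57deef_al
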