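import Pool.Agent.Lib.MP_57deef_al.Closure

set_option autoImplicit false

namespace Pool.Agent.Lib.MP_57deef_al

/-- Thompson's group `F`, as a subgroup of the group of homeomorphisms of `[0,1]`. -/
def thompsonF : Subgroup (unitInterval ≃ₜ unitInterval) where
  carrier := {f | IsThompson f}
  mul_mem' := IsThompson.mul
  one_mem' := isThompson_one
  inv_mem' := IsThompson.inv

end Pool.Agent.Lib.MP_57deef_al
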