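import Pool.Agent.Lib.MP_57deef_al.Abstract

set_option autoImplicit false

namespace Pool.Agent.Lib.MP_57deef_al

open scoped commutatorElement

section

variable {H : Type*} [Group H] {G : Type*} [Group G] (e : commutator H ≃* G)

/-- The action of `H` on `G` obtained from conjugation on the derived subgroup. -/
noncomputable def θ : H →* MulAut G :=
  (MulAut.congr e).toMonoidHom.comp (MulAut.conjNormal (H := commutator H))

lemma θ_apply (h : H) (n : commutator H) : θ e h (e n) = e (MulAut.conjNormal h n) := by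
  simp [θ]

lemma θ_coe (n : commutator H) : θ e (n : H) = MulAut.conj (e n) := by
  ext g
  obtain ⟨m, rfl⟩ := e.surjective g
  rw [θ_apply, MulAut.conj_apply, ← map_inv, ← map_mul, ← map_mul]
  congr 1

/-- The commutator as an element of the derived subgroup. -/
def cm (a b : H) : commutator H :=
  ⟨a * b * a⁻¹ * b⁻¹, Subgroup.commutator_mem_commutator (Subgroup.mem_top a) (Subgroup.mem_top b)⟩

lemma cm_mul_right (a b c : H) : cm a (b * c) = cm a b * MulAut.conjNormal b (cm a c) := by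
  apply Subtype.ext
  simp only [cm, Subgroup.coe_mul, MulAut.conjNormal_apply]
  group

lemma cm_mul_left (a b c : H) : cm (a * b) c = MulAut.conjNormal a (cm b c) * cm a c := by
  apply Subtype.ext
  simp only [cm, Subgroup.coe_mul, MulAut.conjNormal_apply]
  group

lemma θ_rel (a b : H) : θ e a * θ e b * (θ e a)⁻¹ = MulAut.conj (e (cm a b)) * θ e b := by
  rw [← θ_coe, ← map_inv, ← map_mul, ← map_mul, ← map_mul]
  congr 1
  simp only [cm]
  group

lemma χ_cm_eq_zero (E : EndData G) (a b : H) (ha : ∀ g, E.χ (θ e a g) = E.χ g)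
    (hb : ∀ g, E.χ (θ e b g) = E.χ g) : E.χ (e (cm a b)) = 0 := by
  have hb' : ∀ g, E.χ (θ e b⁻¹ g) = E.χ g := by
    intro g
    rw [← hb, ← MulAut.mul_apply, ← map_mul, mul_inv_cancel, map_one, MulAut.one_apply]
  have hpow : ∀ m : ℤ, ∀ g, E.χ (θ e (b ^ m) g) = E.χ g := by
    intro m
    induction m using Int.induction_on with
    | zero => simp
    | succ m ih => intro g; rw [zpow_add_one, map_mul, MulAut.mul_apply, ih, hb]
    | pred m ih => intro g; rw [zpow_sub_one, map_mul, MulAut.mul_apply, ih, hb']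
  have hstep : ∀ m : ℤ, E.χ (e (cm a (b ^ (m + 1)))) = E.χ (e (cm a (b ^ m))) + E.χ (e (cm a b)) := by
    intro m
    rw [zpow_add_one, cm_mul_right, map_mul, E.χ_mul, ← θ_apply, hpow]
  refine E.heisenberg (θ e a) ha _ fun m => ⟨θ e (b ^ m), e (cm a (b ^ m)), hpow m, θ_rel e a _, ?_⟩
  induction m using Int.induction_on with
  | zero =>
    have : cm a (b ^ (0 : ℤ)) = 1 := by
      apply Subtype.ext; simp [cm]
    rw [this, map_one, E.χ_one, zero_mul]
  | succ m ih => rw [hstep, ih]; ring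
  | pred m ih =>
    have := hstep (-(m : ℤ) - 1)
    rw [sub_add_cancel, ih] at this
    linarith

theorem not_integrable (E₀ E₁ : EndData G)
    (hsep : ∀ g₁ g₂ y : G, E₀.χ g₁ = 0 → E₀.χ g₂ = 0 → E₁.χ y = 0 →
      ∃ u : G, Commute g₁ (u * y * u⁻¹) ∧ Commute g₂ (u * y * u⁻¹))
    (x : G) (hx0 : E₀.χ x = 0) (hx1 : E₁.χ x ≠ 0) (e : commutator H ≃* G) : False := by
  have hc := aut_cases E₀ E₁ hsep x hx0 hx1
  have hψ : ∀ (h : H) (g : G), E₀.χ (θ e h g) + E₁.χ (θ e h g) = E₀.χ g + E₁.χ g := by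
    intro h g
    rcases hc (θ e h) with ⟨h0, h1⟩ | ⟨h0, h1⟩
    · rw [h0, h1]
    · rw [h0, h1, add_comm]
  have hsq : ∀ h : H, (∀ g, E₀.χ (θ e (h * h) g) = E₀.χ g) ∧ (∀ g, E₁.χ (θ e (h * h) g) = E₁.χ g) := by
    intro h
    rcases hc (θ e h) with ⟨h0, h1⟩ | ⟨h0, h1⟩
    · exact ⟨fun g => by rw [map_mul, MulAut.mul_apply, h0, h0],
        fun g => by rw [map_mul, MulAut.mul_apply, h1, h1]⟩
    · exact ⟨fun g => by rw [map_mul, MulAut.mul_apply, h0, h1],
        fun g => by rw [map_mul, MulAut.mul_apply, h1, h0]⟩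
  have hcm : ∀ a b : H, E₀.χ (e (cm a b)) + E₁.χ (e (cm a b)) = 0 := by
    intro a b
    have h0 := χ_cm_eq_zero e E₀ (a * a) (b * b) (hsq a).1 (hsq b).1
    have h1 := χ_cm_eq_zero e E₁ (a * a) (b * b) (hsq a).2 (hsq b).2
    have r : ∀ a b c : H, E₀.χ (e (cm a (b * c))) + E₁.χ (e (cm a (b * c)))
        = (E₀.χ (e (cm a b)) + E₁.χ (e (cm a b))) + (E₀.χ (e (cm a c)) + E₁.χ (e (cm a c))) := by
      intro a b c
      rw [cm_mul_right, map_mul, E₀.χ_mul, E₁.χ_mul, ← θ_apply, ← hψ b (e (cm a c))]; ring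
    have l : ∀ a b c : H, E₀.χ (e (cm (a * b) c)) + E₁.χ (e (cm (a * b) c))
        = (E₀.χ (e (cm b c)) + E₁.χ (e (cm b c))) + (E₀.χ (e (cm a c)) + E₁.χ (e (cm a c))) := by
      intro a b c
      rw [cm_mul_left, map_mul, E₀.χ_mul, E₁.χ_mul, ← θ_apply, ← hψ a (e (cm b c))]; ring
    have h2 := r (a * a) b b
    have h3 := l a a b
    omega
  have hall : ∀ (h : H) (hh : h ∈ commutator H), E₀.χ (e ⟨h, hh⟩) + E₁.χ (e ⟨h, hh⟩) = 0 := by
    intro h hh
    have hh' := hh
    rw [commutator_eq_closure] at hh'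
    induction hh' using Subgroup.closure_induction with
    | mem h hmem =>
      obtain ⟨a, b, rfl⟩ := hmem
      exact hcm a b
    | one =>
      have : (⟨1, hh⟩ : commutator H) = 1 := rfl
      rw [this, map_one, E₀.χ_one, E₁.χ_one, add_zero]
    | mul a b ha hb iha ihb =>
      rw [← commutator_eq_closure] at ha hb
      have : (⟨a * b, hh⟩ : commutator H) = ⟨a, ha⟩ * ⟨b, hb⟩ := rfl
      rw [this, map_mul, E₀.χ_mul, E₁.χ_mul]
      have := iha ha
      have := ihb hb
      omega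
    | inv a ha iha =>
      rw [← commutator_eq_closure] at ha
      have : (⟨a⁻¹, hh⟩ : commutator H) = ⟨a, ha⟩⁻¹ := rfl
      rw [this, map_inv, E₀.χ_inv, E₁.χ_inv]
      have := iha ha
      omega
  have := hall (e.symm x).1 (e.symm x).2
  simp only [Subtype.coe_eta, MulEquiv.apply_symm_apply] at this
  omega

end

end Pool.Agent.Lib.MP_57deef_al
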