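import Pool.Agent.Lib.MP_57deef_al.TDefs

set_option autoImplicit false

namespace Pool.Agent.Lib.MP_57deef_al

/-- Bounded real functions. -/
def Bd {X : Type*} (f : X → ℝ) : Prop := ∃ C, ∀ x, |f x| ≤ C

/-- The working form of an invariant mean on a class of functions. -/
def HasMean (Q : Type*) [Group Q] (P : (Q → ℝ) → Prop) : Prop :=
  ∃ M : (Q → ℝ) → ℝ, (∀ f g, P f → P g → M (fun x => f x + g x) = M f + M g) ∧
    (∀ f c, P f → (∀ x, f x ≤ c) → M f ≤ c) ∧
    ∀ f q, P f → M (fun x => f (q * x)) = M f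

lemma Bd.add {X : Type*} {f g : X → ℝ} (hf : Bd f) (hg : Bd g) : Bd fun x => f x + g x := by
  obtain ⟨C, hC⟩ := hf
  obtain ⟨D, hD⟩ := hg
  exact ⟨C + D, fun x => (abs_add_le _ _).trans (add_le_add (hC x) (hD x))⟩

lemma Bd.comp {X Y : Type*} {f : X → ℝ} (hf : Bd f) (u : Y → X) : Bd fun y => f (u y) := by
  obtain ⟨C, hC⟩ := hf
  exact ⟨C, fun y => hC _⟩

lemma bd_const {X : Type*} (c : ℝ) : Bd fun _ : X => c := ⟨|c|, fun _ => le_rfl⟩

section Meas

variable {Q : Type*} {m : Set Q → ℝ}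

lemma meas_fib (hadd : ∀ s t, Disjoint s t → m (s ∪ t) = m s + m t) {ι : Type*} (h : Q → ι)
    (T : Finset ι) : m (h ⁻¹' (T : Set ι)) = ∑ i ∈ T, m (h ⁻¹' {i}) := by
  classical
  induction T using Finset.induction_on with
  | empty =>
    have := hadd ∅ ∅ (by simp)
    rw [Set.union_empty] at this
    simp only [Finset.coe_empty, Set.preimage_empty, Finset.sum_empty]
    linarith
  | insert i T hi ih =>
    rw [Finset.sum_insert hi, ← ih, ← hadd, Finset.coe_insert, Set.insert_eq, Set.preimage_union]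
    exact Disjoint.preimage h (by simpa using hi)

/-- The integral of a function with finitely many values. -/
noncomputable def fint (m : Set Q → ℝ) (f : Q → ℝ) : ℝ := ∑ᶠ y, y * m (f ⁻¹' {y})

lemma fint_comp (hadd : ∀ s t, Disjoint s t → m (s ∪ t) = m s + m t) {ι : Type*} (h : Q → ι)
    (T : Finset ι) (hT : ∀ x, h x ∈ T) (φ : ι → ℝ) :
    fint m (fun x => φ (h x)) = ∑ i ∈ T, φ i * m (h ⁻¹' {i}) := by
  classical
  have e : ∀ y : ℝ, m ((fun x => φ (h x)) ⁻¹' {y})
      = ∑ i ∈ T.filter (fun i => φ i = y), m (h ⁻¹' {i}) := by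
    intro y
    rw [← meas_fib hadd]
    congr 1
    ext x
    simp [hT x]
  unfold fint
  rw [finsum_eq_sum_of_support_subset (s := T.image φ)]
  · rw [← Finset.sum_fiberwise_of_maps_to (g := φ) (t := T.image φ)
      fun i hi => Finset.mem_image_of_mem φ hi]
    refine Finset.sum_congr rfl fun y _ => ?_
    rw [e, Finset.mul_sum]
    exact Finset.sum_congr rfl fun i hi => by rw [(Finset.mem_filter.1 hi).2]
  · intro y hy
    by_contra hn
    apply hy
    have : T.filter (fun i => φ i = y) = ∅ :=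
      Finset.filter_eq_empty_iff.2 fun i hi h' => hn (by
        rw [← h']; exact_mod_cast Finset.mem_image_of_mem φ hi)
    simp only [e, this, Finset.sum_empty, mul_zero]

end Meas

lemma Amenable.hasMean {Q : Type*} [Group Q] (h : Amenable Q) :
    HasMean Q fun f => (Set.range f).Finite := by
  classical
  obtain ⟨m, hpos, hone, hadd, hinv⟩ := h
  refine ⟨fint m, fun f g hf hg => ?_, fun f c hf hc => ?_, fun f q _ => ?_⟩
  · have hT : ∀ x, (f x, g x) ∈ hf.toFinset ×ˢ hg.toFinset := fun x => by simp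
    have h1 := fint_comp hadd (fun x => (f x, g x)) _ hT Prod.fst
    have h2 := fint_comp hadd (fun x => (f x, g x)) _ hT Prod.snd
    have h3 := fint_comp hadd (fun x => (f x, g x)) _ hT fun p => p.1 + p.2
    refine h3.trans ?_
    rw [show fint m f = _ from h1, show fint m g = _ from h2, ← Finset.sum_add_distrib]
    exact Finset.sum_congr rfl fun p _ => add_mul _ _ _
  · have h1 := fint_comp hadd f hf.toFinset (fun x => by simp) id
    have h2 := meas_fib hadd f hf.toFinset
    rw [Set.Finite.coe_toFinset, Set.preimage_range, hone] at h2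
    rw [show fint m f = _ from h1, ← mul_one c, h2, Finset.mul_sum]
    refine Finset.sum_le_sum fun y hy => mul_le_mul_of_nonneg_right ?_ (hpos _)
    obtain ⟨x, rfl⟩ := hf.mem_toFinset.1 hy
    exact hc x
  · unfold fint
    refine finsum_congr fun y => ?_
    rw [← hinv q ((fun x => f (q * x)) ⁻¹' {y})]
    congr 2
    exact Set.image_preimage_eq (f ⁻¹' {y}) (mul_left_surjective q)

section Comm

variable {A : Type*} [CommGroup A]

/-- Translation action on functions. -/
def tr : A →* Module.End ℝ (A → ℝ) where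
  toFun a := LinearMap.funLeft ℝ ℝ fun x => a * x
  map_one' := by ext f x; simp [LinearMap.funLeft]
  map_mul' a b := by ext f x; simp [LinearMap.funLeft, mul_left_comm, mul_assoc]

lemma tr_apply (a : A) (f : A → ℝ) (x : A) : tr a f x = f (a * x) := rfl

/-- The group algebra acts on functions. -/
noncomputable def rho : MonoidAlgebra ℝ A →ₐ[ℝ] Module.End ℝ (A → ℝ) :=
  MonoidAlgebra.lift ℝ (Module.End ℝ (A → ℝ)) A tr

/-- Operators that do not increase upper bounds. -/
def Contr {X : Type*} (T : Module.End ℝ (X → ℝ)) : Prop :=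
  ∀ f c, (∀ x, f x ≤ c) → ∀ x, T f x ≤ c

/-- Functions that can be averaged below any positive number. -/
def Small (w : A → ℝ) : Prop :=
  ∀ δ : ℝ, 0 < δ → ∃ μ : MonoidAlgebra ℝ A, Contr (rho μ) ∧ ∀ x, -δ ≤ rho μ w x

lemma Contr.neg {X : Type*} {T : Module.End ℝ (X → ℝ)} (hT : Contr T) (f : X → ℝ) (c : ℝ)
    (h : ∀ x, c ≤ f x) (x : X) : c ≤ T f x := by
  have := hT (-f) (-c) (fun x => by simpa using h x) x
  rw [map_neg] at this
  simpa using this

lemma Small.add {v w : A → ℝ} (hv : Small v) (hw : Small w) : Small (v + w) := by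
  intro δ hδ
  obtain ⟨μ, hμ, h1⟩ := hv (δ / 2) (by positivity)
  obtain ⟨ν, hν, h2⟩ := hw (δ / 2) (by positivity)
  refine ⟨μ * ν, fun f c h x => ?_, fun x => ?_⟩
  · rw [map_mul]
    exact hμ _ c (hν f c h) x
  · have a1 := hν.neg _ _ h1 x
    have a2 := hμ.neg _ _ h2 x
    have e1 : rho (μ * ν) v = rho ν (rho μ v) := by rw [mul_comm, map_mul]; rfl
    have e2 : rho (μ * ν) w = rho μ (rho ν w) := by rw [map_mul]; rfl
    rw [map_add, e1, e2, Pi.add_apply]
    linarith

lemma small_cob (a : A) (f : A → ℝ) (hf : Bd f) : Small (f - tr a f) := by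
  intro δ hδ
  obtain ⟨C, hC⟩ := hf
  obtain ⟨n, hn⟩ := exists_nat_gt (2 * C / δ)
  have hC0 : 0 ≤ C := (abs_nonneg _).trans (hC 1)
  have hn0 : (0 : ℝ) < n := lt_of_le_of_lt (by positivity) hn
  have key : ∀ (g : A → ℝ) (x : A),
      rho ((n : ℝ)⁻¹ • ∑ j ∈ Finset.range n, MonoidAlgebra.of ℝ A (a ^ j)) g x
        = (n : ℝ)⁻¹ * ∑ j ∈ Finset.range n, g (a ^ j * x) := by
    intro g x
    simp only [rho, map_smul, map_sum, MonoidAlgebra.lift_of, LinearMap.smul_apply,
      LinearMap.sum_apply, Pi.smul_apply, Finset.sum_apply, tr_apply, smul_eq_mul]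
  refine ⟨(n : ℝ)⁻¹ • ∑ j ∈ Finset.range n, MonoidAlgebra.of ℝ A (a ^ j), fun g c h x => ?_,
    fun x => ?_⟩
  · rw [key, inv_mul_le_iff₀ hn0]
    refine (Finset.sum_le_sum fun j _ => h _).trans ?_
    simp
  · rw [key]
    have e : ∑ j ∈ Finset.range n, (f - tr a f) (a ^ j * x) = f (a ^ 0 * x) - f (a ^ n * x) := by
      rw [← Finset.sum_range_sub' (fun j => f (a ^ j * x)) n]
      refine Finset.sum_congr rfl fun j _ => ?_
      rw [Pi.sub_apply, tr_apply, pow_succ', mul_assoc]
    rw [e, le_inv_mul_iff₀ hn0]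
    rw [div_lt_iff₀ hδ] at hn
    have h1 := abs_le.1 (hC (a ^ 0 * x))
    have h2 := abs_le.1 (hC (a ^ n * x))
    linarith [h1.1, h2.2]

/-- The space of bounded functions. -/
def BdS (X : Type*) : Submodule ℝ (X → ℝ) where
  carrier := {f | Bd f}
  add_mem' := fun hf hg => Bd.add hf hg
  zero_mem' := bd_const 0
  smul_mem' := fun c f ⟨C, hC⟩ => ⟨|c| * C, fun x => by
    rw [Pi.smul_apply, smul_eq_mul, abs_mul]
    exact mul_le_mul_of_nonneg_left (hC x) (abs_nonneg c)⟩

lemma Bd.bddAbove {X : Type*} {f : X → ℝ} (hf : Bd f) : BddAbove (Set.range f) := by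
  obtain ⟨C, hC⟩ := hf
  exact ⟨C, by rintro _ ⟨x, rfl⟩; exact (le_abs_self _).trans (hC x)⟩

/-- Coboundaries. -/
def cobS (A : Type*) [CommGroup A] : AddSubmonoid (BdS A) :=
  AddSubmonoid.closure {w | ∃ (a : A) (f : A → ℝ), Bd f ∧ w.1 = f - tr a f}

lemma cobS_smul (c : ℝ) (w : BdS A) (hw : w ∈ cobS A) : c • w ∈ cobS A := by
  induction hw using AddSubmonoid.closure_induction with
  | mem w hw =>
    obtain ⟨a, f, hf, h⟩ := hw
    refine AddSubmonoid.subset_closure ⟨a, c • f, (BdS A).smul_mem c hf, ?_⟩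
    rw [map_smul, ← smul_sub, ← h]
    rfl
  | zero => rw [smul_zero]; exact zero_mem _
  | add v w _ _ hv hw => rw [smul_add]; exact add_mem hv hw

lemma cobS_small (w : BdS A) (hw : w ∈ cobS A) : Small w.1 := by
  induction hw using AddSubmonoid.closure_induction with
  | mem w hw =>
    obtain ⟨a, f, hf, h⟩ := hw
    rw [h]
    exact small_cob a f hf
  | zero =>
    intro δ hδ
    refine ⟨1, fun f c h x => by simpa using h x, fun x => ?_⟩
    simpa using hδ.le
  | add v w _ _ hv hw => exact hv.add hw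

theorem hasMean_comm (A : Type*) [CommGroup A] : HasMean A Bd := by
  classical
  let W : Submodule ℝ (BdS A) := ⟨cobS A, fun c w hw => cobS_smul c w hw⟩
  obtain ⟨g, hg0, hg⟩ := exists_extension_of_le_sublinear (E := BdS A) ⟨W, 0⟩
    (fun f => ⨆ x, f.1 x)
    (fun c hc f => by rw [Real.mul_iSup_of_nonneg hc.le]; rfl)
    (fun f f' => ciSup_le fun x => add_le_add (le_ciSup (Bd.bddAbove f.2) x)
      (le_ciSup (Bd.bddAbove f'.2) x))
    (fun w => by
      change (0 : ℝ) ≤ _
      refine le_of_forall_pos_le_add fun δ hδ => ?_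
      obtain ⟨μ, hμ, h⟩ := cobS_small w.1 w.2 δ hδ
      have := hμ _ _ (fun x => le_ciSup (Bd.bddAbove w.1.2) x) 1
      linarith [h 1])
  refine ⟨fun f => if hf : Bd f then g ⟨f, hf⟩ else 0, fun f f' hf hf' => ?_,
    fun f c hf hc => ?_, fun f q hf => ?_⟩
  · simp only [dif_pos hf, dif_pos hf', dif_pos (hf.add hf')]
    rw [← map_add]
    rfl
  · simp only [dif_pos hf]
    exact (hg _).trans (ciSup_le hc)
  · simp only [dif_pos hf, dif_pos (hf.comp fun x => q * x)]
    have h1 := hg0 ⟨⟨f, hf⟩ - ⟨fun x => f (q * x), hf.comp _⟩,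
      AddSubmonoid.subset_closure ⟨q, f, hf, rfl⟩⟩
    change g (_ - _) = 0 at h1
    rw [map_sub] at h1
    linarith

end Comm

section Step

variable {H : Type*} [Group H] (c₀ : H → ℝ)

/-- `c` is dominated by `c₀` on the left and additive along `K` on the right. -/
def Good (K : Subgroup H) (c : H → ℝ) : Prop :=
  (∀ g h, c (h * g) ≤ c₀ h + c g) ∧ ∀ k ∈ K, ∀ g, c (g * k) = c g + c k

variable {c₀}

lemma Good.bd {K : Subgroup H} {c : H → ℝ} (h : Good c₀ K c) (g : H) {X : Type*} (u : X → H) :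
    Bd fun x => c (g * u x) - c (u x) := by
  refine ⟨|c₀ g| + |c₀ g⁻¹|, fun x => abs_le.2 ⟨?_, ?_⟩⟩
  · have := h.1 (g * u x) g⁻¹
    rw [inv_mul_cancel_left] at this
    linarith [le_abs_self (c₀ g⁻¹), abs_nonneg (c₀ g)]
  · linarith [h.1 (u x) g, le_abs_self (c₀ g), abs_nonneg (c₀ g⁻¹)]

lemma good_step {K K' : Subgroup H} {A : Type*} [Group A] (π : K' →* A)
    (hπ : Function.Surjective π) (hker : ∀ k : K', π k = 1 → (k : H) ∈ K)
    {P : (A → ℝ) → Prop} (hA : HasMean A P) {c : H → ℝ} (h : Good c₀ K c)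
    (hP : ∀ (g : H) (u : A → H), P fun x => c (g * u x) - c (u x)) : ∃ c', Good c₀ K' c' := by
  obtain ⟨M, hadd, hle, hinv⟩ := hA
  choose s hs using hπ
  refine ⟨fun g => M fun a => c (g * s a) - c (s a), fun g h' => ?_, fun p hp g => ?_⟩
  · have e : (fun a => c (h' * g * s a) - c (s a))
        = fun a => (c (h' * (g * s a)) - c (g * s a)) + (c (g * s a) - c (s a)) := by
      funext a; rw [mul_assoc]; ring
    simp only
    rw [e, hadd _ _ (hP h' _) (hP g _)]
    have := hle _ (c₀ h') (hP h' fun a => g * s a) fun a => by linarith [h.1 (g * s a) h']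
    linarith
  · have e : (fun a => c (g * p * s a) - c (s a))
        = fun a => (c (g * (p * s a)) - c (p * s a)) + (c (p * s a) - c (s a)) := by
      funext a; rw [mul_assoc]; ring
    simp only
    rw [e, hadd _ _ (hP g _) (hP p _), ← hinv _ (π ⟨p, hp⟩) (hP g fun a => (s a : H))]
    congr 2
    funext a
    have hk := hker ((s (π ⟨p, hp⟩ * a))⁻¹ * (⟨p, hp⟩ * s a)) (by
      rw [map_mul, map_inv, map_mul, hs, hs, inv_mul_cancel])
    have e2 : p * (s a : H) = s (π ⟨p, hp⟩ * a)
        * (((s (π ⟨p, hp⟩ * a))⁻¹ * (⟨p, hp⟩ * s a) : K') : H) := by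
      simp
    rw [e2, ← mul_assoc, h.2 _ hk, h.2 _ hk]
    ring

lemma good_top_of_derived (r : ℕ) : ∀ c, Good c₀ (derivedSeries H r) c → ∃ c', Good c₀ ⊤ c' := by
  induction r with
  | zero => exact fun c h => ⟨c, h⟩
  | succ r ih =>
    intro c h
    obtain ⟨c', h'⟩ := good_step (K' := derivedSeries H r) Abelianization.of
      (fun a => QuotientGroup.mk_surjective a) (fun k hk => by
        have h1 : k ∈ commutator (derivedSeries H r) := by
          rw [← Abelianization.ker_of]; exact hk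
        rw [derivedSeries_succ, ← Subgroup.map_subtype_commutator]
        exact Subgroup.mem_map_of_mem _ h1) (hasMean_comm _) h fun g u => h.bd g u
    exact ih c' h'

theorem exists_hom_of_good (N : Subgroup H) [N.Normal]
    (hq : Group.IsSolvable (H ⧸ N) ∨ Amenable (H ⧸ N)) (h : Good c₀ N c₀)
    (hN : ∀ n ∈ N, c₀ n⁻¹ = -c₀ n) (hint : ∀ g, ∃ k : ℤ, c₀ g = k) :
    ∃ φ : H →* Multiplicative ℝ, ∀ n ∈ N, φ n = Multiplicative.ofAdd (c₀ n) := by
  have h1 : ∃ c, Good c₀ ⊤ c := by
    rcases hq with ⟨r, hr⟩ | hq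
    · refine good_top_of_derived r c₀ ⟨h.1, fun k hk => h.2 k ?_⟩
      have h2 := map_derivedSeries_le_derivedSeries (QuotientGroup.mk' N) r
        (Subgroup.mem_map_of_mem _ hk)
      rw [hr, Subgroup.mem_bot] at h2
      exact (QuotientGroup.eq_one_iff k).1 h2
    · exact good_step (K' := ⊤) ((QuotientGroup.mk' N).comp (Subgroup.subtype ⊤))
        (fun a => by
          obtain ⟨g, rfl⟩ := QuotientGroup.mk_surjective a
          exact ⟨⟨g, trivial⟩, rfl⟩)
        (fun k hk => (QuotientGroup.eq_one_iff (k : H)).1 hk) hq.hasMean h fun g u => by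
          obtain ⟨C, hC⟩ := h.bd g u
          refine ((Set.finite_Icc (-⌈C⌉) ⌈C⌉).image fun k : ℤ => (k : ℝ)).subset ?_
          rintro _ ⟨x, rfl⟩
          obtain ⟨k, hk⟩ := hint (g * u x)
          obtain ⟨l, hl⟩ := hint (u x)
          have h1 := abs_le.1 ((hC x).trans (Int.le_ceil C))
          simp only [hk, hl] at h1 ⊢
          exact ⟨k - l, ⟨by exact_mod_cast h1.1, by exact_mod_cast h1.2⟩, by push_cast; rfl⟩
  obtain ⟨c, hc1, hc2⟩ := h1
  have h0 : c 1 = 0 := by
    have := hc2 1 trivial 1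
    rw [mul_one] at this
    linarith
  refine ⟨MonoidHom.mk' (fun g => Multiplicative.ofAdd (c g)) fun a b => by
    rw [hc2 b trivial a, ofAdd_add], fun n hn => ?_⟩
  have a1 := hc1 1 n
  have a2 := hc1 n n⁻¹
  rw [mul_one] at a1
  rw [inv_mul_cancel, hN n hn] at a2
  change Multiplicative.ofAdd (c n) = _
  congr 1
  linarith

end Step

end Pool.Agent.Lib.MP_57deef_al
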