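import Pool.Agent.Lib.MP_57deef_al.Concrete
import Pool.Agent.Lib.MP_57deef_al.TPre

set_option autoImplicit false

namespace Pool.Agent.Lib.MP_57deef_al

open unitInterval Filter Topology

/-- A group of increasing homeomorphisms acts on the open interval. -/
@[reducible] def actOf (G : Subgroup (I ≃ₜ I)) (hG : ∀ g ∈ G, StrictMono g) : MulAction G Ω where
  smul g t := ⟨g.1 (toI t), by
    have hm : StrictMono g.1 := hG g.1 g.2
    constructor
    · have := hm (show (0 : I) < toI t from t.2.1)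
      rwa [map_zero_of_mono hm] at this
    · have := hm (show toI t < (1 : I) from t.2.2)
      rwa [map_one_of_mono hm] at this⟩
  one_smul _ := rfl
  mul_smul _ _ _ := rfl

lemma ev_zero {p : I → Prop} : (∀ᶠ t in 𝓝[>] (0 : I), p t) ↔ ∃ ε : Ω, ∀ t ≤ ε, p (toI t) := by
  rw [eventually_nhdsWithin_iff, Metric.eventually_nhds_iff]
  constructor
  · rintro ⟨δ, hδ, h⟩
    refine ⟨⟨min (δ / 2) (1 / 2), by positivity, (min_le_right _ _).trans_lt (by norm_num)⟩,
      fun t ht => h ?_ t.2.1⟩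
    have h1 : (t : ℝ) ≤ δ / 2 := le_trans ht (min_le_left _ _)
    rw [Subtype.dist_eq, Real.dist_eq, toI_coe, Set.Icc.coe_zero, sub_zero, abs_of_pos t.2.1]
    linarith
  · rintro ⟨ε, h⟩
    refine ⟨ε, ε.2.1, fun y hy hy0 => ?_⟩
    rw [Subtype.dist_eq, Real.dist_eq, Set.Icc.coe_zero, sub_zero, abs_of_nonneg y.2.1] at hy
    exact h ⟨y, hy0, hy.trans ε.2.2⟩ hy.le

lemma ev_one {p : I → Prop} : (∀ᶠ t in 𝓝[<] (1 : I), p t) ↔ ∃ ε : Ω, ∀ t, ε ≤ t → p (toI t) := by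
  rw [eventually_nhdsWithin_iff, Metric.eventually_nhds_iff]
  constructor
  · rintro ⟨δ, hδ, h⟩
    have h0 : 0 < min (δ / 2) (1 / 2) := by positivity
    have h2 : min (δ / 2) (1 / 2) ≤ 1 / 2 := min_le_right _ _
    refine ⟨⟨1 - min (δ / 2) (1 / 2), by linarith, by linarith⟩, fun t ht => h ?_ t.2.2⟩
    have h1 : 1 - min (δ / 2) (1 / 2) ≤ (t : ℝ) := ht
    have h3 : min (δ / 2) (1 / 2) ≤ δ / 2 := min_le_left _ _
    rw [Subtype.dist_eq, Real.dist_eq, toI_coe, Set.Icc.coe_one, abs_sub_comm,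
      abs_of_pos (sub_pos.2 t.2.2)]
    linarith
  · rintro ⟨ε, h⟩
    refine ⟨1 - ε, sub_pos.2 ε.2.2, fun y hy hy1 => ?_⟩
    rw [Subtype.dist_eq, Real.dist_eq, Set.Icc.coe_one, abs_sub_comm,
      abs_of_nonneg (sub_nonneg.2 y.2.2)] at hy
    have h2 : (ε : ℝ) < y := by linarith
    exact h ⟨y, ε.2.1.trans h2, hy1⟩ h2.le

/-- The infimum of a set invariant under an increasing homeomorphism is fixed. -/
lemma fix_sInf {g : I ≃ₜ I} (hg : StrictMono g) {S : Set I} (h : g '' S = S) :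
    g (sInf S) = sInf S := by
  have := (hg.orderIsoOfSurjective g g.surjective).map_sInf_eq_sInf_symm_preimage S
  have e : ((hg.orderIsoOfSurjective g g.surjective).symm) ⁻¹' S = S := by
    rw [← OrderIso.image_eq_preimage_symm]
    exact h
  rw [e] at this
  exact this

lemma fix_sSup {g : I ≃ₜ I} (hg : StrictMono g) {S : Set I} (h : g '' S = S) :
    g (sSup S) = sSup S := by
  have := (hg.orderIsoOfSurjective g g.surjective).map_sSup_eq_sSup_symm_preimage S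
  have e : ((hg.orderIsoOfSurjective g g.surjective).symm) ⁻¹' S = S := by
    rw [← OrderIso.image_eq_preimage_symm]
    exact h
  rw [e] at this
  exact this

lemma orbit_inv (G : Subgroup (I ≃ₜ I)) (s : I) {g : I ≃ₜ I} (hg : g ∈ G) :
    g '' {t | ∃ u ∈ G, u s = t} = {t | ∃ u ∈ G, u s = t} := by
  ext t
  constructor
  · rintro ⟨_, ⟨u, hu, rfl⟩, rfl⟩
    exact ⟨g * u, G.mul_mem hg hu, rfl⟩
  · rintro ⟨u, hu, rfl⟩
    exact ⟨_, ⟨g⁻¹ * u, G.mul_mem (G.inv_mem hg) hu, rfl⟩, g.apply_symm_apply _⟩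

lemma cof_low {G : Subgroup (I ≃ₜ I)} (hG : ∀ g ∈ G, StrictMono g) {s t : I} (ht : 0 < t)
    (hfix : ∀ r : I, 0 < r → r ≤ s → ∃ g ∈ G, g r ≠ r) : ∃ g ∈ G, g s < t := by
  by_contra hcon
  push Not at hcon
  have h1 : t ≤ sInf {t | ∃ u ∈ G, u s = t} := le_sInf (by
    rintro _ ⟨u, hu, rfl⟩
    exact hcon u hu)
  obtain ⟨g, hg, hne⟩ := hfix _ (ht.trans_le h1) (sInf_le ⟨1, G.one_mem, rfl⟩)
  exact hne (fix_sInf (hG g hg) (orbit_inv G s hg))

lemma cof_up {G : Subgroup (I ≃ₜ I)} (hG : ∀ g ∈ G, StrictMono g) {s t : I} (ht : t < 1)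
    (hfix : ∀ r : I, r < 1 → s ≤ r → ∃ g ∈ G, g r ≠ r) : ∃ g ∈ G, t < g s := by
  by_contra hcon
  push Not at hcon
  have h1 : sSup {t | ∃ u ∈ G, u s = t} ≤ t := sSup_le (by
    rintro _ ⟨u, hu, rfl⟩
    exact hcon u hu)
  obtain ⟨g, hg, hne⟩ := hfix _ (h1.trans_lt ht) (le_sSup ⟨1, G.one_mem, rfl⟩)
  exact hne (fix_sSup (hG g hg) (orbit_inv G s hg))

/-- From integer powers to natural powers. -/
lemma nat_of_int {G Λ : Type*} [Group G] [LinearOrder Λ] [MulAction G Λ]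
    (mono : ∀ (g : G) (s t : Λ), s < t → g • s < g • t) {z : G} {s t : Λ} (hs : z • s < s)
    {a : ℤ} (ha : z ^ a • s < t) : ∃ n : ℕ, z ^ n • s < t := by
  have h1 : ∀ n : ℕ, s ≤ z ^ (-(n : ℤ)) • s := by
    intro n
    induction n with
    | zero => simp
    | succ n ih =>
      have := mono (z ^ (-((n + 1 : ℕ) : ℤ))) _ _ hs
      rw [← mul_smul, ← zpow_add_one] at this
      refine ih.trans (le_of_eq_of_le ?_ this.le)
      congr 2
      push_cast
      ring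
  obtain ⟨n, rfl | rfl⟩ := Int.eq_nat_or_neg a
  · exact ⟨n, by simpa using ha⟩
  · exact ⟨0, by simpa using (h1 n).trans_lt ha⟩

theorem TwoEnded.exists_hom {G : Subgroup (I ≃ₜ I)} (hG : TwoEnded 0 1 G) {H : Type*}
    [Group H] (N : Subgroup H) [N.Normal] (e : N ≃* G)
    (hq : Group.IsSolvable (H ⧸ N) ∨ Amenable (H ⧸ N)) :
    ∃ φ : H →* Multiplicative ℝ, ∃ n ∈ N, φ n ≠ 1 := by
  obtain ⟨hm, hfix, ⟨z, hz, hz1, hz2⟩, ⟨w, hw, hw1, hw2⟩, x, hx, hx0, hx1⟩ := hG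
  let _ := actOf G hm
  have sm : ∀ (g : G) (t : Ω), toI (g • t) = g.1 (toI t) := fun _ _ => rfl
  have inj : ∀ s t : Ω, toI s = toI t → s = t := fun s t h =>
    Subtype.ext (congrArg (Subtype.val : I → ℝ) h)
  have mono : ∀ (g : G) (s t : Ω), s < t → g • s < g • t := fun g s t h =>
    hm g.1 g.2 (show toI s < toI t from h)
  have faith : ∀ g : G, (∀ t : Ω, g • t = t) → g = 1 := by
    intro g h
    apply Subtype.ext
    ext t
    change (g.1 t : ℝ) = t
    rcases (unitInterval.nonneg' (t := t)).eq_or_lt with h0 | h0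
    · rw [← h0, map_zero_of_mono (hm g.1 g.2)]
    rcases (unitInterval.le_one' (t := t)).eq_or_lt with h1 | h1
    · rw [h1, map_one_of_mono (hm g.1 g.2)]
    exact congrArg (Subtype.val : Ω → ℝ) (h ⟨t, h0, h1⟩)
  obtain ⟨t₀, ht₀⟩ := ev_zero.1 hz1
  obtain ⟨t₁, ht₁⟩ := ev_one.1 hw1
  have hzm : ∀ g ∈ Subgroup.zpowers z, StrictMono g := fun g hg =>
    hm g ((Subgroup.zpowers_le_of_mem hz) hg)
  have hwm : ∀ g ∈ Subgroup.zpowers w, StrictMono g := fun g hg =>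
    hm g ((Subgroup.zpowers_le_of_mem hw) hg)
  let S : Pre G Ω :=
    { t₀ := t₀
      mono := mono
      faith := faith
      cof := fun s t => by
        obtain ⟨g, hg, h⟩ := cof_low hm (s := toI s) (t := toI t) t.2.1
          fun r h0 h1 => hfix r h0 (h1.trans_lt s.2.2)
        exact ⟨⟨g, hg⟩, h⟩
      z := ⟨z, hz⟩
      z_lt := ht₀
      z_cof := fun s hs t => by
        obtain ⟨_, ⟨a, rfl⟩, h⟩ := cof_low hzm (s := toI s) (t := toI t) t.2.1
          fun r h0 h1 => ⟨z, Subgroup.mem_zpowers z,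
            (ht₀ ⟨r, h0, lt_of_le_of_lt (b := s.1) h1 s.2.2⟩ (le_trans (b := s) h1 hs)).ne⟩
        exact nat_of_int mono (z := ⟨z, hz⟩) (a := a) (ht₀ s hs) h
      germ := fun g => by
        obtain ⟨a, ha⟩ := hz2 g.1 g.2
        obtain ⟨ε, hε⟩ := ev_zero.1 (ha.filter_mono nhdsWithin_le_nhds)
        exact ⟨a, ε, fun t ht => inj _ _ (hε t ht)⟩ }
  let T : Pre G Ωᵒᵈ :=
    { t₀ := OrderDual.toDual t₁
      mono := fun g s t h => mono g (OrderDual.ofDual t) (OrderDual.ofDual s) h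
      faith := fun g h => faith g fun t => h (OrderDual.toDual t)
      cof := fun s t => by
        obtain ⟨g, hg, h⟩ := cof_up hm (s := toI (OrderDual.ofDual s))
          (t := toI (OrderDual.ofDual t)) (OrderDual.ofDual t).2.2
          fun r h0 h1 => hfix r (lt_of_lt_of_le (b := toI (OrderDual.ofDual s))
            (OrderDual.ofDual s).2.1 h1) h0
        exact ⟨⟨g, hg⟩, h⟩
      z := ⟨w, hw⟩
      z_lt := fun t ht => ht₁ (OrderDual.ofDual t) ht
      z_cof := fun s hs t => by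
        obtain ⟨_, ⟨a, rfl⟩, h⟩ := cof_up hwm (s := toI (OrderDual.ofDual s))
          (t := toI (OrderDual.ofDual t)) (OrderDual.ofDual t).2.2
          fun r h0 h1 => ⟨w, Subgroup.mem_zpowers w,
            (ht₁ ⟨r, lt_of_lt_of_le (b := (OrderDual.ofDual s : Ω).1) (OrderDual.ofDual s).2.1 h1,
              h0⟩ (le_trans (b := OrderDual.ofDual s) hs h1)).ne'⟩
        exact nat_of_int (Λ := Ωᵒᵈ)
          (fun g s t h => mono g (OrderDual.ofDual t) (OrderDual.ofDual s) h)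
          (z := ⟨w, hw⟩) (a := a) (ht₁ (OrderDual.ofDual s) hs) h
      germ := fun g => by
        obtain ⟨a, ha⟩ := hw2 g.1 g.2
        obtain ⟨ε, hε⟩ := ev_one.1 (ha.filter_mono nhdsWithin_le_nhds)
        exact ⟨a, OrderDual.toDual ε, fun t ht => inj _ _ (hε (OrderDual.ofDual t) ht)⟩ }
  refine exists_hom_of_pre S T ⟨x, hx⟩ ?_ (fun h => hx1 ?_) N e hq
  · obtain ⟨ε, hε⟩ := ev_zero.1 (hx0.filter_mono nhdsWithin_le_nhds)
    exact (S.χ_eq_zero_iff _).2 ⟨ε, fun t ht => inj _ _ (hε t ht)⟩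
  · obtain ⟨ε, hε⟩ := (T.χ_eq_zero_iff _).1 h
    have h1 : ∀ᶠ t in 𝓝[<] (1 : I), x t = t :=
      ev_one.2 ⟨OrderDual.ofDual ε, fun t ht => congrArg toI (hε (OrderDual.toDual t) ht)⟩
    rw [eventually_nhdsWithin_iff] at h1
    filter_upwards [h1] with t ht
    rcases (unitInterval.le_one' (t := t)).eq_or_lt with h2 | h2
    · rw [h2, map_one_of_mono (hm x hx)]
    · exact ht h2

end Pool.Agent.Lib.MP_57deef_al
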