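import Mathlib

set_option autoImplicit false

namespace Pool.Agent.Lib.MP_57deef_al

open Filter Topology

/-- A group `G` of homeomorphisms of an ordered space with end points `a`, `b` is two-ended if its
elements are increasing, no point strictly between `a` and `b` is fixed by all of `G`, every
element agrees near `a` with a power of one `z ∈ G` that moves points near `a` down, every element
agrees near `b` with a power of one `w ∈ G` that moves points near `b` up, and some element is the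
identity near `a` but not near `b`. It is used for `[0,1]` with `a = 0`, `b = 1`. -/
def TwoEnded {X : Type*} [TopologicalSpace X] [LinearOrder X] (a b : X)
    (G : Subgroup (X ≃ₜ X)) : Prop :=
  (∀ g ∈ G, StrictMono g) ∧
  (∀ t, a < t → t < b → ∃ g ∈ G, g t ≠ t) ∧
  (∃ z ∈ G, (∀ᶠ t in 𝓝[>] a, z t < t) ∧ ∀ g ∈ G, ∃ k : ℤ, ∀ᶠ t in 𝓝 a, g t = (z ^ k) t) ∧
  (∃ w ∈ G, (∀ᶠ t in 𝓝[<] b, t < w t) ∧ ∀ g ∈ G, ∃ k : ℤ, ∀ᶠ t in 𝓝 b, g t = (w ^ k) t) ∧
  ∃ x ∈ G, (∀ᶠ t in 𝓝 a, x t = t) ∧ ¬ ∀ᶠ t in 𝓝 b, x t = t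

/-- A group `Q` is amenable if there is a finitely additive probability measure on all subsets of
`Q` that is invariant under left translations. -/
def Amenable (Q : Type*) [Group Q] : Prop :=
  ∃ m : Set Q → ℝ, (∀ s, 0 ≤ m s) ∧ m Set.univ = 1 ∧
    (∀ s t, Disjoint s t → m (s ∪ t) = m s + m t) ∧
    ∀ (q : Q) (s : Set Q), m ((fun x => q * x) '' s) = m s

end Pool.Agent.Lib.MP_57deef_al
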