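import Pool.Agent.Lib.MP_57deef_al.TConc

set_option autoImplicit false

namespace Pool.Agent.Lib.MP_57deef_al

open unitInterval Filter Topology

/-- The germs of a subgroup of finite index are again cyclic. -/
lemma Setup.sub_germ {G Λ : Type*} [Group G] [LinearOrder Λ] [MulAction G Λ] (S : Setup G Λ)
    (K : Subgroup G) [K.FiniteIndex] :
    ∃ z ∈ K, (∃ ε : Λ, ∀ t ≤ ε, z • t < t) ∧
      ∀ g ∈ K, ∃ (a : ℤ) (ε : Λ), ∀ t ≤ ε, g • t = z ^ a • t := by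
  let L : AddSubgroup ℤ :=
    { carrier := {k | ∃ g ∈ K, S.χ g = k}
      add_mem' := by
        rintro _ _ ⟨g, hg, rfl⟩ ⟨h, hh, rfl⟩
        exact ⟨g * h, K.mul_mem hg hh, S.χ_mul g h⟩
      zero_mem' := ⟨1, K.one_mem, hom_one S.χ_mul⟩
      neg_mem' := by
        rintro _ ⟨g, hg, rfl⟩
        exact ⟨g⁻¹, K.inv_mem hg, hom_inv S.χ_mul g⟩ }
  obtain ⟨a, ha⟩ := Int.subgroup_cyclic L
  have hmem : ∀ k, k ∈ L ↔ ∃ m : ℤ, m * |a| = k := by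
    intro k
    rw [ha, AddSubgroup.mem_closure_singleton]
    rcases abs_choice a with h | h <;> rw [h]
    · simp only [smul_eq_mul]
    · exact ⟨fun ⟨m, hm⟩ => ⟨-m, by rw [← hm, smul_eq_mul]; ring⟩,
        fun ⟨m, hm⟩ => ⟨-m, by rw [← hm, smul_eq_mul]; ring⟩⟩
  obtain ⟨n, hn0, -, hn⟩ :=
    Subgroup.exists_pow_mem_of_index_ne_zero (Subgroup.FiniteIndex.index_ne_zero (H := K)) S.z
  have hz : S.χ S.z = 1 := S.χ_eq ⟨S.t₀, fun t _ => by rw [zpow_one]⟩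
  have ha0 : 0 < |a| := by
    obtain ⟨m, hm⟩ := (hmem _).1 ⟨_, hn, rfl⟩
    rw [← zpow_natCast, hom_zpow S.χ_mul, hz] at hm
    refine (abs_nonneg a).lt_of_ne fun h => ?_
    rw [← h] at hm
    omega
  obtain ⟨z, hzK, hza⟩ := (hmem |a|).2 ⟨1, one_mul _⟩
  refine ⟨z, hzK, ?_, fun g hg => ?_⟩
  · obtain ⟨ε, hε⟩ := S.χ_spec z
    exact ⟨ε, fun t ht => by rw [hε t ht, hza]; exact S.zpow_lt ha0 t⟩
  · obtain ⟨m, hm⟩ := (hmem _).1 ⟨g, hg, rfl⟩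
    obtain ⟨ε, hε⟩ := (S.χ_eq_zero_iff (g⁻¹ * z ^ m)).1 (by
      rw [S.χ_mul, hom_inv S.χ_mul, hom_zpow S.χ_mul, hza, hm, neg_add_cancel])
    refine ⟨m, ε, fun t ht => ?_⟩
    have := hε t ht
    rw [mul_smul, inv_smul_eq_iff] at this
    exact this.symm

lemma ev_zero' {p : I → Prop} (h0 : p 0) (h : ∃ ε : Ω, ∀ t ≤ ε, p (toI t)) :
    ∀ᶠ t in 𝓝 (0 : I), p t := by
  have h1 := ev_zero.2 h
  rw [eventually_nhdsWithin_iff] at h1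
  filter_upwards [h1] with t ht
  rcases (unitInterval.nonneg' (t := t)).eq_or_lt with h2 | h2
  · rwa [← h2]
  · exact ht h2

lemma ev_one' {p : I → Prop} (h0 : p 1) (h : ∃ ε : Ω, ∀ t, ε ≤ t → p (toI t)) :
    ∀ᶠ t in 𝓝 (1 : I), p t := by
  have h1 := ev_one.2 h
  rw [eventually_nhdsWithin_iff] at h1
  filter_upwards [h1] with t ht
  rcases (unitInterval.le_one' (t := t)).eq_or_lt with h2 | h2
  · rwa [h2]
  · exact ht h2

theorem twoEnded_of_finiteIndex (K : Subgroup thompsonF) [K.FiniteIndex] :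
    TwoEnded 0 1 (K.map thompsonF.subtype) := by
  have hpow : ∀ f : thompsonF, ∃ n : ℕ, 0 < n ∧ f ^ n ∈ K := fun f => by
    obtain ⟨n, hn0, -, hn⟩ :=
      Subgroup.exists_pow_mem_of_index_ne_zero (Subgroup.FiniteIndex.index_ne_zero (H := K)) f
    exact ⟨n, hn0, hn⟩
  have z0 : ∀ g : thompsonF, g.1 0 = 0 := fun g => map_zero_of_mono g.2.1
  have z1 : ∀ g : thompsonF, g.1 1 = 1 := fun g => map_one_of_mono g.2.1
  refine ⟨?_, fun t h0 h1 => ?_, ?_, ?_, ?_⟩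
  · rintro _ ⟨g, -, rfl⟩
    exact g.2.1
  · obtain ⟨n, hn0, hn⟩ := hpow zF
    refine ⟨_, ⟨_, hn, rfl⟩, ne_of_lt ?_⟩
    have := setup₀.zpow_lt (a := n) (by omega) ⟨t, h0, h1⟩
    rw [zpow_natCast] at this
    exact this
  · obtain ⟨z, hz, ⟨ε, h1⟩, h2⟩ := setup₀.sub_germ K
    refine ⟨_, ⟨z, hz, rfl⟩, ev_zero.2 ⟨ε, h1⟩, ?_⟩
    rintro _ ⟨g, hg, rfl⟩
    obtain ⟨a, δ, h⟩ := h2 g hg
    exact ⟨a, ev_zero' ((z0 g).trans (z0 (z ^ a)).symm) ⟨δ, fun t ht => congrArg toI (h t ht)⟩⟩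
  · obtain ⟨z, hz, ⟨ε, h1⟩, h2⟩ := setup₁.sub_germ K
    refine ⟨_, ⟨z, hz, rfl⟩,
      ev_one.2 ⟨OrderDual.ofDual ε, fun t ht => h1 (OrderDual.toDual t) ht⟩, ?_⟩
    rintro _ ⟨g, hg, rfl⟩
    obtain ⟨a, δ, h⟩ := h2 g hg
    exact ⟨a, ev_one' ((z1 g).trans (z1 (z ^ a)).symm)
      ⟨OrderDual.ofDual δ, fun t ht => congrArg toI (h (OrderDual.toDual t) ht)⟩⟩
  · obtain ⟨n, hn0, hn⟩ := hpow xF⁻¹
    refine ⟨_, ⟨_, hn, rfl⟩, ?_, fun h => ?_⟩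
    · obtain ⟨ε, hε⟩ := (setup₀.χ_eq_zero_iff (xF⁻¹ ^ n)).1 (by
        have h0 : setup₀.χ xF⁻¹ = 0 := (setup₀.χ_eq_zero_iff _).2 setup₀.x_germ
        rw [← zpow_natCast, hom_zpow setup₀.χ_mul, h0, mul_zero])
      exact ev_zero' (z0 (xF⁻¹ ^ n)) ⟨ε, fun t ht => congrArg toI (hε t ht)⟩
    · obtain ⟨ε, hε⟩ := ev_one.1 (h.filter_mono nhdsWithin_le_nhds)
      have h1 : setup₁.χ (xF⁻¹ ^ n) = 0 := (setup₁.χ_eq_zero_iff _).2
        ⟨OrderDual.toDual ε, fun t ht =>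
          Subtype.ext (congrArg (Subtype.val : I → ℝ) (hε (OrderDual.ofDual t) ht))⟩
      have h2 : setup₁.χ xF⁻¹ = 1 := setup₁.χ_eq (by
        simp only [zpow_one]
        exact setup₁.y_germ)
      rw [← zpow_natCast, hom_zpow setup₁.χ_mul, h2] at h1
      omega

end Pool.Agent.Lib.MP_57deef_al
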