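import Pool.Agent.Lib.MP_57deef_al.Abstract
import Pool.Agent.Lib.MP_57deef_al.TAvg

set_option autoImplicit false

namespace Pool.Agent.Lib.MP_57deef_al

variable {G : Type*} [Group G]

/-- `α` carries the chain of one end into the chain of another end, with shift at most `c`. -/
def DD (E E' : EndData G) (α : MulAut G) (c : ℤ) : Prop :=
  ∃ j₀, ∀ j, j₀ ≤ j → ∀ g ∈ E.A j, α g ∈ E'.A (j + c)

lemma dd_exists (E E' : EndData G) (α : MulAut G) (h : ∀ g, E'.χ (α g) = E.χ g) :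
    ∃ c, DD E E' α c := by
  obtain ⟨i, hi⟩ := E.bounded E' α (fun g hg => by rw [h, hg])
  obtain ⟨j₀, hj₀⟩ := E'.conj_mem (α E.z)
  have h3 : ∀ n : ℕ, ∀ g ∈ E.A n, α g ∈ E'.A (n + max i j₀) := by
    intro n
    induction n with
    | zero => exact fun g hg => E'.A_mono (by simp) (hi g hg)
    | succ n ih =>
      intro g hg
      have e : E.z * (E.z⁻¹ * g * E.z) * E.z⁻¹ = g := by group
      have h4 : E.z⁻¹ * g * E.z ∈ E.A n := by
        rw [E.A_conj, e]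
        exact_mod_cast hg
      have h5 := hj₀ _ (by omega) _ (ih _ h4)
      rw [← map_inv, ← map_mul, ← map_mul, h, E.χ_z, e] at h5
      exact E'.A_mono (by omega) h5
  refine ⟨max i j₀, 0, fun j hj g hg => ?_⟩
  obtain ⟨n, rfl⟩ := Int.eq_ofNat_of_zero_le hj
  exact h3 n g hg

lemma DD.mul {E E' E'' : EndData G} {α β : MulAut G} {c d : ℤ} (hα : DD E' E'' α c)
    (hβ : DD E E' β d) : DD E E'' (α * β) (c + d) := by
  obtain ⟨i, hi⟩ := hα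
  obtain ⟨j, hj⟩ := hβ
  refine ⟨max j (i - d), fun n hn g hg => ?_⟩
  have := hi _ (by omega) _ (hj n (by omega) g hg)
  rw [MulAut.mul_apply]
  exact E''.A_mono (by omega) this

lemma DD.nonneg {E : EndData G} {c : ℤ} (h : DD E E 1 c) : 0 ≤ c := by
  by_contra hc
  exact E.not_D_one (E.D_mono (c := c) h (by omega))

/-- Total shift of both ends at most `c`. -/
def PP (E₀ E₁ : EndData G) (α : MulAut G) (c : ℤ) : Prop :=
  ∃ a b, a + b = c ∧ ((DD E₀ E₀ α a ∧ DD E₁ E₁ α b) ∨ (DD E₀ E₁ α a ∧ DD E₁ E₀ α b))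

lemma PP.mul {E₀ E₁ : EndData G} {α β : MulAut G} {c d : ℤ} (hα : PP E₀ E₁ α c)
    (hβ : PP E₀ E₁ β d) : PP E₀ E₁ (α * β) (c + d) := by
  obtain ⟨a, b, rfl, ⟨h1, h2⟩ | ⟨h1, h2⟩⟩ := hα <;>
    obtain ⟨a', b', rfl, ⟨h3, h4⟩ | ⟨h3, h4⟩⟩ := hβ
  · exact ⟨a + a', b + b', by ring, Or.inl ⟨h1.mul h3, h2.mul h4⟩⟩
  · exact ⟨b + a', a + b', by ring, Or.inr ⟨h2.mul h3, h1.mul h4⟩⟩
  · exact ⟨a + a', b + b', by ring, Or.inr ⟨h1.mul h3, h2.mul h4⟩⟩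
  · exact ⟨b + a', a + b', by ring, Or.inl ⟨h2.mul h3, h1.mul h4⟩⟩

lemma PP.nonneg {E₀ E₁ : EndData G} {c : ℤ} (h : PP E₀ E₁ 1 c) : 0 ≤ c := by
  obtain ⟨a, b, rfl, ⟨h1, h2⟩ | ⟨h1, h2⟩⟩ := h
  · linarith [h1.nonneg, h2.nonneg]
  · have := h1.mul h2
    rw [mul_one] at this
    exact this.nonneg

lemma pp_conj (E₀ E₁ : EndData G) (g : G) : PP E₀ E₁ (MulAut.conj g) (E₀.χ g + E₁.χ g) :=
  ⟨_, _, rfl, Or.inl ⟨E₀.conj_mem g, E₁.conj_mem g⟩⟩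

theorem exists_hom_of_ends (E₀ E₁ : EndData G)
    (hsep : ∀ g₁ g₂ y : G, E₀.χ g₁ = 0 → E₀.χ g₂ = 0 → E₁.χ y = 0 →
      ∃ u : G, Commute g₁ (u * y * u⁻¹) ∧ Commute g₂ (u * y * u⁻¹))
    (x : G) (hx0 : E₀.χ x = 0) (hx1 : E₁.χ x ≠ 0) {H : Type*} [Group H] (N : Subgroup H)
    [N.Normal] (e : N ≃* G) (hq : Group.IsSolvable (H ⧸ N) ∨ Amenable (H ⧸ N)) :
    ∃ φ : H →* Multiplicative ℝ, ∃ n ∈ N, φ n ≠ 1 := by
  let θ : H →* MulAut G := (MulAut.congr e).toMonoidHom.comp (MulAut.conjNormal (H := N))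
  have θ_apply : ∀ (h : H) (n : N), θ h (e n) = e (MulAut.conjNormal h n) := by
    intro h n; simp [θ]
  have θ_coe : ∀ n : N, θ (n : H) = MulAut.conj (e n) := by
    intro n
    ext g
    obtain ⟨m, rfl⟩ := e.surjective g
    rw [θ_apply, MulAut.conj_apply, ← map_inv, ← map_mul, ← map_mul]
    congr 1
  have hex : ∀ α : MulAut G, ∃ c, PP E₀ E₁ α c := by
    intro α
    rcases aut_cases E₀ E₁ hsep x hx0 hx1 α with ⟨h0, h1⟩ | ⟨h0, h1⟩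
    · obtain ⟨a, ha⟩ := dd_exists E₀ E₀ α h0
      obtain ⟨b, hb⟩ := dd_exists E₁ E₁ α h1
      exact ⟨_, a, b, rfl, Or.inl ⟨ha, hb⟩⟩
    · obtain ⟨a, ha⟩ := dd_exists E₀ E₁ α h1
      obtain ⟨b, hb⟩ := dd_exists E₁ E₀ α h0
      exact ⟨_, a, b, rfl, Or.inr ⟨ha, hb⟩⟩
  have hleast : ∀ α : MulAut G, ∃ c, PP E₀ E₁ α c ∧ ∀ d, PP E₀ E₁ α d → c ≤ d := by
    intro α
    obtain ⟨b, hb⟩ := hex α⁻¹
    refine Int.exists_least_of_bdd ⟨-b, fun d hd => ?_⟩ (hex α)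
    have := hd.mul hb
    rw [mul_inv_cancel] at this
    linarith [this.nonneg]
  choose c hc hmin using hleast
  have hsub : ∀ α β, c (α * β) ≤ c α + c β := fun α β => hmin _ _ ((hc α).mul (hc β))
  have hconj : ∀ g : G, c (MulAut.conj g) = E₀.χ g + E₁.χ g := by
    intro g
    refine le_antisymm (hmin _ _ (pp_conj E₀ E₁ g)) ?_
    have := (hc (MulAut.conj g)).mul (pp_conj E₀ E₁ g⁻¹)
    rw [← map_mul, mul_inv_cancel, map_one, E₀.χ_inv, E₁.χ_inv] at this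
    linarith [this.nonneg]
  have hinv : ∀ n ∈ N, c (θ n⁻¹) = -c (θ n) := by
    intro n hn
    have h1 := θ_coe ⟨n, hn⟩
    have h2 := θ_coe ⟨n, hn⟩⁻¹
    change θ n = _ at h1
    change θ n⁻¹ = _ at h2
    rw [h1, h2, hconj, hconj, map_inv, E₀.χ_inv, E₁.χ_inv]
    ring
  obtain ⟨φ, hφ⟩ := exists_hom_of_good (c₀ := fun h => (c (θ h) : ℝ)) N hq
    ⟨fun g h => by beta_reduce; rw [map_mul]; exact_mod_cast hsub _ _, fun k hk g => by
      have h1 := hsub (θ g) (θ k)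
      have h2 := hsub (θ (g * k)) (θ k⁻¹)
      rw [← map_mul] at h1
      rw [← map_mul, mul_inv_cancel_right, hinv k hk] at h2
      have h3 : c (θ (g * k)) = c (θ g) + c (θ k) := by omega
      beta_reduce
      exact_mod_cast h3⟩
    (fun n hn => by exact_mod_cast hinv n hn) fun g => ⟨_, rfl⟩
  refine ⟨φ, e.symm x, (e.symm x).2, fun h => hx1 ?_⟩
  rw [hφ _ (e.symm x).2, θ_coe, hconj, MulEquiv.apply_symm_apply, hx0, zero_add] at h
  exact_mod_cast ofAdd_eq_one.1 h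

end Pool.Agent.Lib.MP_57deef_al
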